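import Pool.Agent.MP_655169_nt.H78.Ent
import Pool.Agent.MP_655169_nt.H78.QZ2
import Pool.Agent.MP_655169_nt.H83.Rank

/-! Full column rank of the homogenised matrix at every point close to `t`. -/

open Polynomial Finset

namespace LogPow

namespace Side

open RankL (cond pow_le_exp one_le_mul_pow)

lemma fin2 (K l δ c : ℝ) (M n n' τ : ℕ) (hK : 2 ≤ K) (hM : 1 ≤ M) (hl : Real.exp l = 2 * K ^ 2 * M)
    (hc : c = 2 * K * M) (hτ : τ ≤ M ^ 2)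
    (hMn : (M : ℝ) ^ 2 ≤ n) (hnn : (n : ℝ) ≤ n') (hn' : (n' : ℝ) ≤ 9 * (M : ℝ) ^ 4)
    (hδ0 : 0 ≤ δ) (hδ : δ ≤ Real.exp (-((2112 + K ^ 3) * n' * l))) :
    K ^ (6 * M ^ 2) * (c ^ τ * ((2 / (1 / (K * c) / c)) ^ n * (n : ℝ) ^ n *
      Real.exp (K ^ 2 * M * (K * M)) *
      (4 * ((n' : ℝ) * ((((M ^ 2 : ℕ) : ℝ) + 1) * ((Real.exp 4000 + 1) * (c * (K * M)))) ^ n' *
        (K ^ (7 * M ^ 2) * (n * (2 * Real.exp (7 * M ^ 2 * l) * δ))))))) < 1 := by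
  have hM1 : (1 : ℝ) ≤ M := by exact_mod_cast hM
  have hK0 : (0 : ℝ) < K := by linarith
  have hc1 : 1 ≤ c := by rw [hc]; nlinarith
  have hcl : c ≤ Real.exp l := by rw [hc, hl]; nlinarith
  have hKl : K ≤ Real.exp l := by rw [hl]; nlinarith
  have hl0 : 0 ≤ l := Real.one_le_exp_iff.1 (hc1.trans hcl)
  have hτ' : (τ : ℝ) ≤ (M : ℝ) ^ 2 := by exact_mod_cast hτ
  have h1 : K ^ (8 * M ^ 2) ≤ Real.exp (8 * (n' * l)) := by
    refine (pow_le_exp _ hK0.le hKl).trans (Real.exp_le_exp.mpr ?_)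
    push_cast
    nlinarith
  have h2 : c ^ (τ + 2 * n + n') ≤ Real.exp (4 * (n' * l)) := by
    refine (pow_le_exp _ (by linarith) hcl).trans (Real.exp_le_exp.mpr ?_)
    push_cast
    nlinarith
  have h3 : K ^ (8 * M ^ 2) * c ^ (τ + 2 * n + n') * δ ≤
      Real.exp (-((2100 + K ^ 3) * n' * l)) := by
    calc _ ≤ Real.exp (8 * (n' * l)) * Real.exp (4 * (n' * l)) *
          Real.exp (-((2112 + K ^ 3) * n' * l)) := by gcongr
      _ = _ := by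
          rw [← Real.exp_add, ← Real.exp_add]
          congr 1
          ring
  refine lt_of_eq_of_lt ?_ (RankL.fin K l _ M n n' hK hM hl hMn hnn hn' (by positivity) h3)
  have e1 : 2 / (1 / (K * c) / c) = 2 / (1 / K) * c ^ 2 := by field_simp
  have e2 : (((M ^ 2 : ℕ) : ℝ) + 1) * ((Real.exp 4000 + 1) * (c * (K * M))) =
      (((M ^ 2 : ℕ) : ℝ) + 1) * ((Real.exp 4000 + 1) * (K * M)) * c := by ring
  rw [e1, e2, mul_pow _ (c ^ 2), mul_pow _ c]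
  generalize (2 / (1 / K)) ^ n = x1
  generalize ((((M ^ 2 : ℕ) : ℝ) + 1) * ((Real.exp 4000 + 1) * (K * M))) ^ n' = x2
  generalize Real.exp (K ^ 2 * M * (K * M)) = x3
  generalize Real.exp (7 * M ^ 2 * l) = x4
  generalize M ^ 2 = m
  ring

variable {D : Base} (E : Side D)

lemma contDiff_fn (c : (ℤ × ℤ) × ℕ) (n : ℕ) : ContDiff ℂ n (E.fn c) := by
  unfold Side.fn
  fun_prop

lemma wH_ge {M : ℕ} {x : ℤ × ℤ} (hx : x ∈ box M) :
    1 ≤ D.K₀ ^ (6 * M ^ 2) * ‖E.w ^ (tri x.1 + tri x.2) * E.H.eval D.t ^ uu x‖ := by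
  have hK : (1 : ℝ) ≤ D.K₀ := by linarith [D.hK]
  have h1 : 1 ≤ D.K₀ ^ (2 * M ^ 2) * ‖E.w‖ ^ (tri x.1 + tri x.2) :=
    one_le_mul_pow hK (norm_nonneg _) E.hKw' (LatL.tri_box M _ hx)
  have h2 : 1 ≤ D.K₀ ^ (4 * M ^ 2) * ‖E.H.eval D.t‖ ^ uu x :=
    one_le_mul_pow hK (norm_nonneg _) E.hKH' (LatL.uu_box M _ hx)
  rw [norm_mul, norm_pow, norm_pow, show 6 * M ^ 2 = 2 * M ^ 2 + 4 * M ^ 2 by ring, pow_add D.K₀,
    mul_mul_mul_comm]
  exact one_le_mul_of_one_le_of_one_le h1 h2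

lemma colF_ge (M : ℕ) (c : (ℤ × ℤ) × ℕ) (hc : c.1 ∈ box M) :
    1 ≤ D.K₀ ^ (6 * M ^ 2) * ‖E.colF c‖ := E.wH_ge hc

lemma rowF_ge (M : ℕ) (r : (ℤ × ℤ) × ℕ) (hr : r.1 ∈ box M) (hσ : r.2 ≤ M ^ 2) :
    1 ≤ D.K₀ ^ (7 * M ^ 2) * ‖E.rowF M r‖ := by
  unfold Side.rowF
  have hK : (1 : ℝ) ≤ D.K₀ := by linarith [D.hK]
  have h1 := E.wH_ge hr
  have h2 : 1 ≤ D.K₀ ^ (M ^ 2) * ‖D.A.eval D.t‖ ^ r.2 :=
    one_le_mul_pow hK (norm_nonneg _) D.hKA' hσ
  have h3 : 1 ≤ ‖(D.n₀ : ℂ)‖ ^ ((1 + D.a.natAbs + D.b.natAbs) * M ^ 2) := by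
    refine one_le_pow₀ ?_
    rw [Complex.norm_natCast]
    exact_mod_cast D.hn₀
  rw [norm_mul, norm_mul, norm_pow (D.n₀ : ℂ), norm_pow (D.A.eval D.t),
    show 7 * M ^ 2 = 6 * M ^ 2 + M ^ 2 by ring, pow_add D.K₀]
  calc (1 : ℝ) ≤ ‖(D.n₀ : ℂ)‖ ^ ((1 + D.a.natAbs + D.b.natAbs) * M ^ 2) *
        (D.K₀ ^ (6 * M ^ 2) * ‖E.w ^ (tri r.1.1 + tri r.1.2) * E.H.eval D.t ^ uu r.1‖) *
        (D.K₀ ^ (M ^ 2) * ‖D.A.eval D.t‖ ^ r.2) :=
        one_le_mul_of_one_le_of_one_le (one_le_mul_of_one_le_of_one_le h3 h1) h2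
    _ = _ := by ring

/-- The polynomial coefficient attached to the lattice point `x`. -/
noncomputable def pp (M q : ℕ) (ce : (ℤ × ℤ) × ℕ → ℂ) (x : ℤ × ℤ) : ℂ[X] :=
  ∑ τ ∈ range (mult M q x), monomial τ (E.colF (x, τ) * ce (x, τ))

lemma pp_coeff (M q : ℕ) (ce : (ℤ × ℤ) × ℕ → ℂ) (x : ℤ × ℤ) (τ : ℕ) :
    (pp E M q ce x).coeff τ = if τ < mult M q x then E.colF (x, τ) * ce (x, τ) else 0 := by
  unfold pp
  rw [finsetSum_coeff]
  simp only [coeff_monomial]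
  rw [Finset.sum_ite_eq' (range (mult M q x)) τ (fun σ => E.colF (x, σ) * ce (x, σ))]
  simp only [mem_range]

lemma pp_degree (M q : ℕ) (ce : (ℤ × ℤ) × ℕ → ℂ) (x : ℤ × ℤ) :
    (pp E M q ce x).degree < mult M q x := by
  rw [degree_lt_iff_coeff_zero]
  intro m hm
  rw [pp_coeff, if_neg (by omega)]

lemma ep_eq (M q : ℕ) (ce : (ℤ × ℤ) × ℕ → ℂ) :
    ep (box M) (fun x => E.lam x * D.L) (pp E M q ce) =
      fun z => ∑ j ∈ idx M q, (E.colF j * ce j) * E.fn j z := by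
  funext z
  rw [LatL.sum_idx]
  unfold ep pp Side.fn
  refine Finset.sum_congr rfl fun x _ => ?_
  rw [eval_finsetSum, Finset.sum_mul]
  refine Finset.sum_congr rfl fun τ _ => ?_
  rw [eval_monomial]
  ring

lemma row_eq (M q : ℕ) (ce : (ℤ × ℤ) × ℕ → ℂ)
    (r : (ℤ × ℤ) × ℕ) :
    E.rowF M r * iteratedDeriv r.2 (ep (box M) (fun x => E.lam x * D.L) (pp E M q ce)) (E.mu r.1)
      = ∑ j ∈ idx M q, (E.entry M r j).eval D.t * ce j := by
  rw [ep_eq E, iteratedDeriv_fun_sum (fun j _ =>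
    (contDiff_const.mul (contDiff_fn E j r.2)).contDiffAt), Finset.mul_sum]
  refine Finset.sum_congr rfl fun j _ => ?_
  rw [iteratedDeriv_const_mul_field, E.entry_eval]
  ring

theorem rank (M q q' : ℕ) (γ : ℂ) (hM : 1 ≤ M) (hqM : q ≤ M) (hq'M : q' ≤ M)
    (h1 : 1001 * (NN M q : ℝ) ≤ 1000 * NN M q') (h3 : 2 * D.K₀ ^ 3 * M ^ 2 * (1 + Real.exp 4000) ≤ NN M q)
    (hγ : ‖γ - D.t‖ ≤ Real.exp (-((2112 + D.K₀ ^ 3) * NN M q' * D.l0 M))) (c : idx M q → ℂ)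
    (hc : (Matrix.of fun (i : idx M q') (j : idx M q) => (E.entry M i.1 j.1).eval γ).mulVec c = 0) :
    c = 0 := by
  by_contra hne
  obtain ⟨j1, hj1⟩ := Function.ne_iff.mp hne
  obtain ⟨j0, -, hj0⟩ := Finset.exists_max_image (Finset.univ : Finset (idx M q))
    (fun j => ‖c j‖) ⟨j1, Finset.mem_univ _⟩
  set mx := ‖c j0‖ with hmx
  have hmx0 : 0 < mx := lt_of_lt_of_le (norm_pos_iff.mpr hj1) (hj0 j1 (Finset.mem_univ _))
  classical
  set ce : (ℤ × ℤ) × ℕ → ℂ := fun p => if h : p ∈ idx M q then c ⟨p, h⟩ else 0 with hce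
  have hcej : ∀ j : idx M q, ce j.1 = c j := fun j => by simp [hce, j.2]
  have hce_le : ∀ j ∈ idx M q, ‖ce j‖ ≤ mx := fun j hj => by
    have := hj0 ⟨j, hj⟩ (Finset.mem_univ _)
    rwa [← hcej] at this
  have hK := D.hK
  have hK0 : (0 : ℝ) < D.K₀ := by linarith
  have hM1 : (1 : ℝ) ≤ M := by exact_mod_cast hM
  have hM2 : (1 : ℝ) ≤ (M : ℝ) ^ 2 := one_le_pow₀ hM1
  have hK3 : (8 : ℝ) ≤ D.K₀ ^ 3 := by
    have := pow_le_pow_left₀ (by norm_num) hK 3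
    linarith
  have hG : (3 : ℝ) ≤ Real.exp 4000 := by
    have := Real.add_one_le_exp (4000 : ℝ)
    linarith
  have h16 : 16 * (M : ℝ) ^ 2 ≤ NN M q := by
    refine le_trans ?_ h3
    have : (8 : ℝ) * 1 ≤ D.K₀ ^ 3 * (1 + Real.exp 4000) :=
      mul_le_mul hK3 (by linarith) (by norm_num) (by linarith)
    nlinarith
  have hN0 : (0 : ℝ) ≤ NN M q := Nat.cast_nonneg _
  have hexp : Real.exp (D.l0 M) = 2 * D.K₀ ^ 2 * M := Real.exp_log (by positivity)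
  have hl0 : 0 < D.l0 M := Real.log_pos (by nlinarith)
  have hδ1 : ‖γ - D.t‖ < 1 := by
    refine hγ.trans_lt ?_
    rw [Real.exp_lt_one_iff, neg_lt_zero]
    have : (0 : ℝ) < NN M q' := by linarith
    positivity
  have hsq : ∀ (a : ℕ), a ≤ M → ∀ x, mult M a x ≤ M ^ 2 := fun a ha x =>
    (LatL.mult_le M a x).trans (Nat.pow_le_pow_left ha 2)
  set b : ℝ := 2 * Real.exp (7 * M ^ 2 * D.l0 M) * ‖γ - D.t‖ with hb
  have hb0 : 0 ≤ b := by positivity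
  have hsmall : ∀ y ∈ box M, ∀ σ < mult M q' y,
      ‖iteratedDeriv σ (ep (box M) (fun x => E.lam x * D.L) (pp E M q ce)) (E.mu y)‖ ≤
        D.K₀ ^ (7 * M ^ 2) * (NN M q * b) * mx := by
    intro y hy σ hσ
    have hi : (y, σ) ∈ idx M q' := (LatL.mem_idx M q' _).mpr ⟨hy, hσ⟩
    have hσM : σ ≤ M ^ 2 := hσ.le.trans (hsq q' hq'M y)
    have hz : ∑ j ∈ idx M q, (E.entry M (y, σ) j).eval γ * ce j = 0 := by
      have := congrFun hc ⟨(y, σ), hi⟩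
      simp only [Matrix.mulVec, dotProduct, Matrix.of_apply, Pi.zero_apply] at this
      rw [← Finset.sum_coe_sort]
      simp only [hcej]
      exact this
    have hrow := row_eq E M q ce (y, σ)
    have hR := E.rowF_ge M (y, σ) hy hσM
    have hS : ‖∑ j ∈ idx M q, (E.entry M (y, σ) j).eval D.t * ce j‖ ≤ NN M q * b * mx := by
      rw [← norm_neg, ← zero_sub, ← hz, ← Finset.sum_sub_distrib]
      refine (norm_sum_le _ _).trans ?_
      have : ∀ j ∈ idx M q, ‖(E.entry M (y, σ) j).eval γ * ce j -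
          (E.entry M (y, σ) j).eval D.t * ce j‖ ≤ b * mx := by
        intro j hj
        have hj' := (LatL.mem_idx M q j).mp hj
        rw [← sub_mul, norm_mul]
        exact mul_le_mul (E.entry_lip M (y, σ) j γ hM hy hj'.1 hσM (hj'.2.le.trans (hsq q hqM _)) hδ1)
          (hce_le j hj) (norm_nonneg _) hb0
      refine (Finset.sum_le_card_nsmul _ _ _ this).trans ?_
      rw [nsmul_eq_mul, NN, ← mul_assoc]
    rw [← hrow, norm_mul] at hS
    calc _ ≤ (D.K₀ ^ (7 * M ^ 2) * ‖E.rowF M (y, σ)‖) * ‖iteratedDeriv σ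
          (ep (box M) (fun x => E.lam x * D.L) (pp E M q ce)) (E.mu y)‖ :=
          le_mul_of_one_le_left (norm_nonneg _) hR
      _ ≤ D.K₀ ^ (7 * M ^ 2) * (NN M q * b * mx) := by
          rw [mul_assoc]
          exact mul_le_mul_of_nonneg_left hS (by positivity)
      _ = _ := by ring
  have hj0' := (LatL.mem_idx M q j0.1).mp j0.2
  have hc1 : 1 ≤ 2 * D.K₀ * M := by nlinarith
  have key := qz2 (ℤ × ℤ) (ℤ × ℤ) (box M) (box M) (fun x => E.lam x * D.L) (mult M q)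
    (pp E M q ce) E.mu (mult M q') (M ^ 2) (2 * D.K₀ * M) (1 / (D.K₀ * (2 * D.K₀ * M)))
    (D.K₀ ^ 2 * M) (D.K₀ * M) (Real.exp 4000)
    (D.K₀ ^ (7 * M ^ 2) * (NN M q * b) * mx) hc1 (fun x _ => pp_degree E M q ce x) (by positivity)
    (by rw [div_le_one (by positivity)]; nlinarith)
    (fun i hi j hj hij => by
      rw [← sub_mul, norm_mul, div_le_iff₀ (by positivity)]
      have := one_le_mul_of_one_le_of_one_le (E.lam_sep M i j hi hj hij) D.hKL'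
      linarith)
    (by positivity)
    (fun i hi => by
      rw [norm_mul]
      calc _ ≤ D.K₀ * M * D.K₀ :=
            mul_le_mul (E.lam_le M i hi) D.hKL (norm_nonneg _) (by positivity)
        _ = _ := by ring)
    (by nlinarith) (fun k hk => E.mu_le M k hk) (fun k hk l hl hkl => E.mu_sep M k l hk hl hkl)
    (fun k _ => hsq q' hq'M k) hG
    (by
      rw [← LatL.NN_eq, ← LatL.NN_eq]
      refine cond _ _ _ h1 (by linarith) (le_trans (le_of_eq ?_) h3)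
      ring)
    (by positivity) hsmall j0.1.1 hj0'.1 j0.1.2
  rw [← LatL.NN_eq, ← LatL.NN_eq, pp_coeff, if_pos hj0'.2, Prod.mk.eta, hcej, norm_mul] at key
  have hC := E.colF_ge M j0.1 hj0'.1
  have hfin := fin2 D.K₀ (D.l0 M) ‖γ - D.t‖ _ M (NN M q) (NN M q') j0.1.2 hK hM hexp rfl
    (hj0'.2.le.trans (hsq q hqM _)) (by linarith)
    (by linarith) (by exact_mod_cast LatL.NN_le M q' hM hq'M) (norm_nonneg _) hγ
  have h5 : mx ≤ D.K₀ ^ (6 * M ^ 2) * (‖E.colF j0.1‖ * mx) := by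
    rw [← mul_assoc]; exact le_mul_of_one_le_left hmx0.le hC
  have h6 := mul_le_mul_of_nonneg_left key (show 0 ≤ D.K₀ ^ (6 * M ^ 2) by positivity)
  have h7 := mul_lt_mul_of_pos_right hfin hmx0
  rw [← hb] at h7
  have h8 := h5.trans h6
  rw [one_mul] at h7
  refine absurd (h8.trans_eq ?_) (not_le.mpr h7)
  ring

end Side

end LogPow
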