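import Pool.Agent.MP_655169_nt.H78.Ent
import Pool.Agent.MP_655169_nt.H83.Small
import Pool.Agent.MP_655169_nt.H83.Det
import Pool.Agent.MP_655169_nt.H83.SumMin
import Pool.Agent.MP_655169_nt.H83.Taylor

/-! Smallness of the homogenised minors near the point `t`. -/

open Polynomial Finset

namespace LogPow

namespace Side

open SmallL (pow_bd)

variable {D : Base} (E : Side D)

theorem H_le : ‖E.H.eval D.t‖ ≤ D.K₀ := (E.hKG D.t (by linarith)).2.trans D.K1_le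

theorem wH_le {M : ℕ} {x : ℤ × ℤ} (hx : x ∈ box M) :
    ‖E.w ^ (tri x.1 + tri x.2) * E.H.eval D.t ^ uu x‖ ≤ D.K₀ ^ (6 * M ^ 2) := by
  have hK := D.hK
  have h1 : (1 : ℝ) ≤ D.K₀ := by linarith
  rw [norm_mul, norm_pow, norm_pow, show 6 * M ^ 2 = 2 * M ^ 2 + 4 * M ^ 2 by ring, pow_add D.K₀]
  exact mul_le_mul (pow_bd (norm_nonneg _) h1 E.hKw (LatL.tri_box M _ hx))
    (pow_bd (norm_nonneg _) h1 E.H_le (LatL.uu_box M _ hx)) (by positivity) (by positivity)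

theorem colF_le {M : ℕ} {c : (ℤ × ℤ) × ℕ} (hc : c.1 ∈ box M) :
    ‖E.colF c‖ ≤ (D.K₀ ^ 6) ^ (M ^ 2) := by
  rw [← pow_mul]
  exact E.wH_le hc

theorem rowF_le {M : ℕ} {r : (ℤ × ℤ) × ℕ} (hr : r.1 ∈ box M)
    (h2 : r.2 ≤ M ^ 2) : ‖E.rowF M r‖ ≤ (D.K₀ ^ 8) ^ (M ^ 2) := by
  have hK := D.hK
  have h1 : (1 : ℝ) ≤ D.K₀ := by linarith
  have a1 : ‖(D.n₀ : ℂ) ^ ((1 + D.a.natAbs + D.b.natAbs) * M ^ 2)‖ ≤ D.K₀ ^ (M ^ 2) := by
    rw [norm_pow, pow_mul, Complex.norm_natCast]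
    refine pow_le_pow_left₀ (by positivity) (le_trans ?_ D.cst_le) _
    refine pow_le_pow_left₀ (by positivity) ?_ _
    exact le_mul_of_one_le_right (by positivity) (Real.one_le_exp (norm_nonneg _))
  have a2 := E.wH_le hr
  have a3 : ‖D.A.eval D.t ^ r.2‖ ≤ D.K₀ ^ (M ^ 2) := by
    rw [norm_pow]
    exact pow_bd (norm_nonneg _) h1 (D.hKA D.t (by linarith)).1 h2
  unfold Side.rowF
  rw [norm_mul, norm_mul]
  calc _ ≤ D.K₀ ^ (M ^ 2) * D.K₀ ^ (6 * M ^ 2) * D.K₀ ^ (M ^ 2) := by gcongr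
    _ = _ := by rw [← pow_mul, ← pow_add, ← pow_add]; congr 1; ring

theorem fn_le {M q : ℕ} {c : (ℤ × ℤ) × ℕ} (hc : c.1 ∈ box M)
    (h2 : c.2 ≤ M ^ 2) (hM : 1 ≤ M) (hq : q ≤ M) (z : ℂ)
    (hz : ‖z‖ = 2 * Real.exp 1 * (D.K₀ * M) * (q : ℝ) ^ 2) :
    ‖E.fn c z‖ ≤ ((2 * D.K₀ ^ 2 * M) ^ 3) ^ (M ^ 2) * Real.exp (6 * D.K₀ ^ 3 * M ^ 2 * q ^ 2) := by
  have hK := D.hK
  have hM' : (1 : ℝ) ≤ M := by exact_mod_cast hM
  have hq' : (q : ℝ) ≤ M := by exact_mod_cast hq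
  have he : Real.exp 1 ≤ 3 := by linarith [Real.exp_one_lt_d9]
  have z1 : ‖z‖ ≤ 6 * (D.K₀ * M) * (q : ℝ) ^ 2 := by
    rw [hz]
    gcongr
    linarith
  have k1 : (1 : ℝ) ≤ D.K₀ := by linarith
  have z2 : ‖z‖ ≤ (2 * D.K₀ ^ 2 * M) ^ 3 := by
    calc ‖z‖ ≤ 6 * (D.K₀ * M) * (M : ℝ) ^ 2 := z1.trans (by gcongr)
      _ = 6 * D.K₀ ^ 1 * (M : ℝ) ^ 3 := by ring
      _ ≤ 8 * D.K₀ ^ 6 * (M : ℝ) ^ 3 := by gcongr <;> norm_num
      _ = _ := by ring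
  have t1 : (1 : ℝ) ≤ 2 * D.K₀ ^ 2 * M := by nlinarith
  unfold Side.fn
  rw [norm_mul, norm_pow]
  refine mul_le_mul (pow_bd (norm_nonneg _) (one_le_pow₀ t1) z2 h2) ?_ (norm_nonneg _)
    (by positivity)
  refine (Complex.norm_exp_le_exp_norm _).trans (Real.exp_le_exp.2 ?_)
  rw [norm_mul, norm_mul]
  have a1 := E.lam_le M _ hc
  have a2 := D.hKL
  calc _ ≤ D.K₀ * M * D.K₀ * (6 * (D.K₀ * M) * (q : ℝ) ^ 2) := by gcongr
    _ = _ := by ring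

theorem fn_diff (c : (ℤ × ℤ) × ℕ) : Differentiable ℂ (E.fn c) := by
  unfold Side.fn
  fun_prop

theorem comb (N : ℕ) :
    N * (((N : ℝ) + 1) ^ N * (N.factorial : ℝ)) ≤ Real.exp (2 * (N : ℝ) ^ 2) := by
  have a1 : (N : ℝ) + 1 ≤ Real.exp N := Real.add_one_le_exp _
  have a2 : (N.factorial : ℝ) ≤ (N : ℝ) ^ N := by exact_mod_cast Nat.factorial_le_pow N
  have a3 : (N : ℝ) ≤ Real.exp (N - 1) := by linarith [Real.add_one_le_exp ((N : ℝ) - 1)]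
  calc _ ≤ N * (Real.exp N ^ N * (N : ℝ) ^ N) := by gcongr
    _ = Real.exp N ^ N * (N : ℝ) ^ (N + 1) := by ring
    _ ≤ Real.exp N ^ N * Real.exp (N - 1) ^ (N + 1) := by gcongr
    _ ≤ _ := by
        rw [← Real.exp_nat_mul, ← Real.exp_nat_mul, ← Real.exp_add, Real.exp_le_exp]
        push_cast
        nlinarith

/-- The product of all the factors. -/
theorem all_le {M : ℕ} {r c : (ℤ × ℤ) × ℕ} (hr : r.1 ∈ box M)
    (hc : c.1 ∈ box M) (h2 : r.2 ≤ M ^ 2) (hM : 1 ≤ M) {X : ℝ} (hX : 0 ≤ X) :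
    ‖E.rowF M r‖ * ‖E.colF c‖ * (r.2.factorial * (((2 * D.K₀ ^ 2 * M) ^ 3) ^ (M ^ 2) * X)) ≤
      Real.exp (12 * M ^ 2 * D.l0 M) * X := by
  have hK := D.hK
  have hM' : (1 : ℝ) ≤ M := by exact_mod_cast hM
  set T : ℝ := 2 * D.K₀ ^ 2 * M with hT
  have t0 : D.K₀ ^ 2 ≤ T := by nlinarith
  have t1 : (M : ℝ) ≤ T := by
    have : (1 : ℝ) ≤ 2 * D.K₀ ^ 2 := by nlinarith
    exact le_mul_of_one_le_left (by positivity) this
  have a1 : ‖E.rowF M r‖ ≤ (T ^ 4) ^ (M ^ 2) := by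
    refine (E.rowF_le hr h2).trans (pow_le_pow_left₀ (by positivity) ?_ _)
    calc D.K₀ ^ 8 = (D.K₀ ^ 2) ^ 4 := by ring
      _ ≤ _ := by gcongr
  have a2 : ‖E.colF c‖ ≤ (T ^ 3) ^ (M ^ 2) := by
    refine (E.colF_le hc).trans (pow_le_pow_left₀ (by positivity) ?_ _)
    calc D.K₀ ^ 6 = (D.K₀ ^ 2) ^ 3 := by ring
      _ ≤ _ := by gcongr
  have a3 : (r.2.factorial : ℝ) ≤ (T ^ 2) ^ (M ^ 2) := by
    have b1 : (r.2.factorial : ℝ) ≤ (r.2 : ℝ) ^ r.2 := by exact_mod_cast Nat.factorial_le_pow _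
    have b2 : (r.2 : ℝ) ≤ (M : ℝ) ^ 2 := by exact_mod_cast h2
    refine b1.trans (pow_bd (by positivity) (by nlinarith) (b2.trans ?_) h2)
    gcongr
  have e : Real.exp (12 * M ^ 2 * D.l0 M) = T ^ (12 * M ^ 2) := by
    have : (12 : ℝ) * M ^ 2 * D.l0 M = ((12 * M ^ 2 : ℕ) : ℝ) * Real.log T := by
      unfold Base.l0
      push_cast
      rfl
    rw [this, Real.exp_nat_mul, Real.exp_log (by linarith)]
  have hT0 : 0 ≤ T := by linarith
  calc _ ≤ (T ^ 4) ^ (M ^ 2) * (T ^ 3) ^ (M ^ 2) * ((T ^ 2) ^ (M ^ 2) * ((T ^ 3) ^ (M ^ 2) * X)) := by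
        gcongr
    _ = _ := by
        rw [e, pow_mul T 12, ← mul_assoc, ← mul_assoc, ← mul_pow, ← mul_pow, ← mul_pow]
        congr 2
        ring

theorem minor_small (M q q' : ℕ) (ι : idx M q → idx M q') (Y : ℝ) (hq2 : 2 ≤ q) (hqM : q ≤ M)
    (hq'M : q' ≤ M) (hl0 : D.l0 M ≤ (q : ℝ) ^ 2) (hY : 0 < Y) (hYN : Y ≤ 2 * NN M q * Real.log q)
    (z : ℂ) (hz : ‖z - D.t‖ = Real.exp (-Y)) :
    NN M q * ‖(E.minor M q q' ι).eval z‖ ≤ Real.exp (-(NN M q * Y - Y - Y ^ 2 / (4 * Real.log q) -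
      2 * (NN M q : ℝ) ^ 2 - 8 * D.K₀ ^ 3 * M ^ 2 * q ^ 2 * NN M q)) := by
  have hK := D.hK
  have hM : 1 ≤ M := by omega
  have hM' : (2 : ℝ) ≤ M := by exact_mod_cast hq2.trans hqM
  have hq' : (2 : ℝ) ≤ q := by exact_mod_cast hq2
  have hlog : 0 < Real.log q := Real.log_pos (by linarith)
  have mem : ∀ {t : ℕ}, t ≤ M → ∀ p : idx M t, p.1.1 ∈ box M ∧ p.1.2 ≤ M ^ 2 := fun {t} h p => by
    obtain ⟨a, b⟩ := (LatL.mem_idx M t p.1).1 p.2
    exact ⟨a, (b.le.trans (LatL.mult_le M t _)).trans (Nat.pow_le_pow_left h 2)⟩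
  set N := NN M q with hN
  set X : ℝ := Real.exp (6 * D.K₀ ^ 3 * M ^ 2 * q ^ 2) with hX
  set m : ℝ := ((2 * D.K₀ ^ 2 * M) ^ 3) ^ (M ^ 2) * X with hm
  set B₂ : ℝ := Real.exp (12 * M ^ 2 * D.l0 M) * X with hB₂
  set B : ℝ := Real.exp (8 * D.K₀ ^ 3 * M ^ 2 * q ^ 2) with hB
  have X1 : 1 ≤ X := Real.one_le_exp (by positivity)
  have l4 : Real.log 4 ≤ D.l0 M := Real.log_le_log (by norm_num) (by nlinarith)
  have l5 : 0 < Real.log 4 := Real.log_pos (by norm_num)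
  have B4 : 4 * B₂ ≤ B := by
    have : (4 : ℝ) = Real.exp (Real.log 4) := (Real.exp_log (by norm_num)).symm
    rw [this, hB₂, hX, hB, ← Real.exp_add, ← Real.exp_add, Real.exp_le_exp]
    have k3 : (8 : ℝ) ≤ D.K₀ ^ 3 := by
      calc (8 : ℝ) = 2 ^ 3 := by norm_num
        _ ≤ _ := by gcongr
    have m1 : (1 : ℝ) ≤ (M : ℝ) ^ 2 := by nlinarith
    have c1 : (M : ℝ) ^ 2 * D.l0 M ≤ (M : ℝ) ^ 2 * (q : ℝ) ^ 2 := by gcongr
    have c2 : 1 * D.l0 M ≤ (M : ℝ) ^ 2 * D.l0 M := by gcongr; linarith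
    have c3 : 8 * ((M : ℝ) ^ 2 * (q : ℝ) ^ 2) ≤ D.K₀ ^ 3 * ((M : ℝ) ^ 2 * (q : ℝ) ^ 2) := by gcongr
    have c4 : 0 ≤ (M : ℝ) ^ 2 * (q : ℝ) ^ 2 := by positivity
    nlinarith
  have B0 : 0 < B₂ := by positivity
  have eE : ∀ k : ℕ, (((q : ℝ) ^ 2)⁻¹) ^ k = Real.exp (-(k * (2 * Real.log q))) := fun k => by
    have : (2 : ℝ) * Real.log q = Real.log ((q : ℝ) ^ 2) := by rw [Real.log_pow]; norm_num
    rw [this, Real.exp_neg, Real.exp_nat_mul, Real.exp_log (by positivity), inv_pow]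
  have tay := fun (i j : idx M q) => taylorStmt (E.fn j.1) (E.mu (ι i).1.1) (ι i).1.2 N (D.K₀ * M)
    ((q : ℝ) ^ 2) m (E.fn_diff _) (by nlinarith) (by nlinarith)
    (E.mu_le M _ (mem hq'M (ι i)).1) (E.fn_le (mem hqM j).1 (mem hqM j).2 hM hqM)
  have al := fun (i j : idx M q) => E.all_le (mem hq'M (ι i)).1 (mem hqM j).1
    (mem hq'M (ι i)).2 hM (le_trans zero_le_one X1)
  have key := detStmt (idx M q) N (Matrix.of fun i j : idx M q => (E.entry M (ι i).1 j.1).eval z)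
    (fun i k => E.rowF M (ι i).1 * tc (E.mu (ι i).1.1) (ι i).1.2 k)
    (fun k j => E.colF j.1 * iteratedDeriv k (E.fn j.1) 0)
    (fun i j => (E.entry M (ι i).1 j.1).eval z - ∑ k ∈ range N,
      E.rowF M (ι i).1 * tc (E.mu (ι i).1.1) (ι i).1.2 k *
        (E.colF j.1 * iteratedDeriv k (E.fn j.1) 0))
    B (2 * Real.log q) Y (by positivity) (by positivity) (fun i j => by simp)
    (fun i k j _ => by
      have e : E.rowF M (ι i).1 * tc (E.mu (ι i).1.1) (ι i).1.2 k *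
          (E.colF j.1 * iteratedDeriv k (E.fn j.1) 0) = E.rowF M (ι i).1 * E.colF j.1 *
          (tc (E.mu (ι i).1.1) (ι i).1.2 k * iteratedDeriv k (E.fn j.1) 0) := by ring
      rw [e, norm_mul, norm_mul, ← eE]
      have a1 := (tay i j).1 k
      have a2 := al i j
      have a3 : 0 ≤ (((q : ℝ) ^ 2)⁻¹) ^ k := by positivity
      calc _ ≤ ‖E.rowF M (ι i).1‖ * ‖E.colF j.1‖ *
            ((ι i).1.2.factorial * m * (((q : ℝ) ^ 2)⁻¹) ^ k) := by gcongr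
        _ = ‖E.rowF M (ι i).1‖ * ‖E.colF j.1‖ * ((ι i).1.2.factorial * m) *
            (((q : ℝ) ^ 2)⁻¹) ^ k := by ring
        _ ≤ B * (((q : ℝ) ^ 2)⁻¹) ^ k := mul_le_mul_of_nonneg_right (by linarith) a3)
    (fun i j => by
      have e : (E.entry M (ι i).1 j.1).eval z - ∑ k ∈ range N,
          E.rowF M (ι i).1 * tc (E.mu (ι i).1.1) (ι i).1.2 k *
            (E.colF j.1 * iteratedDeriv k (E.fn j.1) 0) =
          ((E.entry M (ι i).1 j.1).eval z - (E.entry M (ι i).1 j.1).eval D.t) +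
            E.rowF M (ι i).1 * E.colF j.1 *
              (iteratedDeriv (ι i).1.2 (E.fn j.1) (E.mu (ι i).1.1) - ∑ k ∈ range N,
                tc (E.mu (ι i).1.1) (ι i).1.2 k * iteratedDeriv k (E.fn j.1) 0) := by
        rw [E.entry_eval, mul_sub, mul_sum, sub_add_sub_cancel]
        congr 1
        exact sum_congr rfl fun k _ => by ring
      rw [e]
      have y0 : 0 < Real.exp (-Y) := Real.exp_pos _
      have a0 := E.entry_lip M (ι i).1 j.1 z hM (mem hq'M (ι i)).1 (mem hqM j).1 (mem hq'M (ι i)).2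
        (mem hqM j).2 (by rw [hz]; exact Real.exp_lt_one_iff.2 (by linarith))
      rw [hz] at a0
      have a1 := (tay i j).2
      have a2 := al i j
      have a3 : (((q : ℝ) ^ 2)⁻¹) ^ N ≤ Real.exp (-Y) := by
        rw [eE, Real.exp_le_exp]
        linarith
      have a4 : Real.exp (7 * M ^ 2 * D.l0 M) ≤ B₂ := by
        refine le_trans (Real.exp_le_exp.2 ?_) (le_mul_of_one_le_right (by positivity) X1)
        have : 0 ≤ (M : ℝ) ^ 2 * D.l0 M := mul_nonneg (by positivity) (by linarith)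
        nlinarith
      have m0 : 0 ≤ m := by positivity
      refine (norm_add_le _ _).trans ?_
      rw [norm_mul, norm_mul]
      calc _ ≤ 2 * B₂ * Real.exp (-Y) + ‖E.rowF M (ι i).1‖ * ‖E.colF j.1‖ *
            (2 * (ι i).1.2.factorial * m * Real.exp (-Y)) := by
            refine add_le_add (a0.trans (by gcongr)) ?_
            exact mul_le_mul_of_nonneg_left (a1.trans (by gcongr)) (by positivity)
        _ = (2 * B₂ + 2 * (‖E.rowF M (ι i).1‖ * ‖E.colF j.1‖ * ((ι i).1.2.factorial * m))) *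
            Real.exp (-Y) := by ring
        _ ≤ B * Real.exp (-Y) := mul_le_mul_of_nonneg_right (by linarith) y0.le)
  have e2 : Fintype.card (idx M q) = N := Fintype.card_coe _
  rw [e2] at key
  rw [E.minor_eval]
  refine (mul_le_mul_of_nonneg_left key (Nat.cast_nonneg _)).trans ?_
  have s1 := sumMin N (2 * Real.log q) Y (by positivity) hY.le
  have s2 := comb N
  rw [← mul_assoc, ← mul_assoc]
  calc _ ≤ Real.exp (2 * (N : ℝ) ^ 2) * B ^ N *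
        Real.exp (-(N * Y - Y - Y ^ 2 / (2 * (2 * Real.log q)))) := by gcongr
    _ = _ := by
      rw [hB, ← Real.exp_nat_mul, ← Real.exp_add, ← Real.exp_add]
      congr 1
      ring

end Side

end LogPow
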