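import Pool.Agent.MP_655169_nt.H78.Int
import Pool.Agent.MP_655169_nt.H78.Small
import Pool.Agent.MP_655169_nt.H78.Rank
import Pool.Agent.MP_655169_nt.H83.Prof
import Pool.Agent.MP_655169_nt.H83.Minor
import Pool.Agent.MP_655169_nt.H83.Jensen
import Pool.Agent.MP_655169_nt.H83.Num0
import Pool.Agent.MP_655169_nt.H83.Num1
import Pool.Agent.MP_655169_nt.H83.Num2
import Pool.Agent.MP_655169_nt.H83.Num3
import Pool.Agent.MP_655169_nt.H83.Num4

/-! The auxiliary polynomials on the conic. -/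

open Polynomial Finset

namespace LogPow

namespace Conj

variable {D : Base} {E E' : Side D} {S : Subring ℂ} (c : Conj E E' S)
include c

theorem split {F F' : ℂ[X]} (h : (F, F') ∈ conjRing S E.β D.a D.b E.hβ) {γ : ℂ}
    (hγ : F.eval γ ≠ 0) : ∃ (R : ℂ[X]) (c₁ c₂ : ℂ), InS S R ∧ R.eval γ ≠ 0 ∧
      R = C c₁ * F + C c₂ * F' ∧ ‖c₁‖ ≤ D.K₀ ∧ ‖c₂‖ ≤ D.K₀ := by
  obtain ⟨P, hP, Q, hQ, e1, e2⟩ := h
  simp only at e1 e2
  have hK := D.hK
  have hδ : 1 ≤ ‖2 * E.β - D.a‖ := by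
    have h1 := E.one_le_norm (-D.a) 2 (by simp)
    have a1 : ((-D.a : ℤ) : ℂ) + ((2 : ℤ) : ℂ) * E.β = 2 * E.β - D.a := by push_cast; ring
    have a2 : ((-D.a : ℤ) : ℂ) + D.a * ((2 : ℤ) : ℂ) - ((2 : ℤ) : ℂ) * E.β = -(2 * E.β - D.a) := by
      push_cast; ring
    rw [a1, a2, norm_neg] at h1
    nlinarith [norm_nonneg (2 * E.β - D.a)]
  have hδ0 : 2 * E.β - D.a ≠ 0 := fun h0 => by
    rw [h0, norm_zero] at hδ
    linarith
  have hb : ∀ x : ℂ, ‖x‖ ≤ D.K₀ → ‖x / (2 * E.β - D.a)‖ ≤ D.K₀ := fun x hx => by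
    rw [norm_div]
    exact (div_le_self (norm_nonneg _) hδ).trans hx
  have hβ : ‖E.β‖ ≤ D.K₀ := by linarith [E.hKβ, abs_nonneg (D.a : ℝ)]
  have hβ' : ‖D.a - E.β‖ ≤ D.K₀ := by
    rw [← c.hβ]
    linarith [E'.hKβ, abs_nonneg (D.a : ℝ)]
  by_cases h0 : Q.eval γ = 0
  · refine ⟨P, -(D.a - E.β) / (2 * E.β - D.a), E.β / (2 * E.β - D.a), (IntDegL.ins_iff _ _).2 hP,
      ?_, ?_, hb _ (by rwa [norm_neg]), hb _ hβ⟩
    · rwa [e1, eval_add, eval_mul, h0, mul_zero, add_zero] at hγ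
    · refine Polynomial.funext fun z => ?_
      simp only [e1, e2, eval_add, eval_mul, eval_C]
      rw [div_mul_eq_mul_div, div_mul_eq_mul_div, ← add_div, eq_div_iff hδ0]
      ring
  · refine ⟨Q, 1 / (2 * E.β - D.a), -1 / (2 * E.β - D.a), (IntDegL.ins_iff _ _).2 hQ, h0, ?_,
      hb _ (by simp; linarith), hb _ (by simp; linarith)⟩
    refine Polynomial.funext fun z => ?_
    simp only [e1, e2, eval_add, eval_mul, eval_C]
    field_simp
    ring

theorem aux (hS : ∀ x ∈ S, x ≠ 0 → 1 ≤ ‖x‖) : Aux S D.t := by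
  have hK := D.hK
  obtain ⟨y₀, hy₀⟩ := num0 D.K₀ hK
  have hK3 : 0 < D.K₀ ^ 3 := by positivity
  refine ⟨2 * (2112 + D.K₀ ^ 3), 100 * D.K₀, 1 / (100 * D.K₀), y₀, by linarith, by linarith,
    by positivity, ?_⟩
  intro y k hy hk hk' γ hγ
  obtain ⟨M, q, q', hrel⟩ := hy₀ y k hy hk hk'
  have h8 : (2 : ℝ) ^ 3 ≤ D.K₀ ^ 3 := by gcongr
  have hl : 100000 ≤ Real.log y / 2 := by
    have := hrel.hl
    nlinarith
  have hq : (100000 : ℝ) ≤ q := hl.trans hrel.hlq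
  have hqq : (q : ℝ) ≤ q' := by have := hrel.hq3; nlinarith
  have hq'M : q' ≤ M := by exact_mod_cast hrel.hq5
  have hqq' : q ≤ q' := by exact_mod_cast hqq
  have hq3 : 3 ≤ q := by
    have : (3 : ℝ) ≤ q := by linarith
    exact_mod_cast this
  have hqM : q ≤ M := hqq'.trans hq'M
  have hM1 : 1 ≤ M := by omega
  have b1 := profStmt latStmt M q hq3 hqM
  have b2 := profStmt latStmt M q' (hq3.trans hqq') hq'M
  obtain ⟨hl0, -, -, t0, t1, -, t3, t4, t5⟩ := num1 _ _ _ _ _ _ _ _ _ _ _ _ _ hrel b1 b2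
  have hy1 := hrel.hy
  have t6 : NN M q' * Real.log (2 * D.K₀ ^ 2 * M) ≤ 2 * y ^ 2 := by
    refine le_of_mul_le_mul_left (a := 2100 + D.K₀ ^ 3) ?_ (by linarith)
    linarith
  have hN : 2 * D.K₀ ≤ NN M q := by
    refine le_trans ?_ t3
    have a1 : (1 : ℝ) ≤ (M : ℝ) ^ 2 := one_le_pow₀ (by exact_mod_cast hM1)
    have a2 : (1 : ℝ) ≤ 1 + Real.exp 4000 := by linarith [Real.exp_pos 4000]
    have a3 : D.K₀ ≤ D.K₀ ^ 3 := le_self_pow₀ (by linarith) (by norm_num)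
    calc 2 * D.K₀ = 2 * D.K₀ * 1 * 1 := by ring
      _ ≤ _ := by gcongr
  have hrank := E.rank M q q' γ hM1 hqM hq'M t1 t3 (hγ.trans (by
    apply Real.exp_le_exp.2
    simp only [Base.l0]
    have := mul_le_mul_of_nonneg_left t6 (by linarith : 0 ≤ 2112 + D.K₀ ^ 3)
    linarith))
  obtain ⟨ι, hι, hdet⟩ := minorStmt _ _ _ hrank
  have hev : (E.minor M q q' ι).eval γ ≠ 0 := by
    rw [E.minor_eval]
    exact hdet
  obtain ⟨R, c₁, c₂, hR, hRγ, eR, hc₁, hc₂⟩ := c.split (c.minor_mem M q q' ι) hev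
  have hne : R ≠ 0 := by
    intro h; rw [h] at hRγ; simp at hRγ
  have hbd : ∀ (z : ℂ) (b : ℝ), NN M q * ‖(E.minor M q q' ι).eval z‖ ≤ b →
      NN M q * ‖(E'.minor M q q' ι).eval z‖ ≤ b → ‖R.eval z‖ ≤ b := fun z b h1 h2 => by
    rw [eR, eval_add, eval_mul, eval_mul, eval_C, eval_C]
    refine (norm_add_le _ _).trans ?_
    rw [norm_mul, norm_mul]
    have a1 := norm_nonneg ((E.minor M q q' ι).eval z)
    have a2 := norm_nonneg ((E'.minor M q q' ι).eval z)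
    have a3 := mul_le_mul_of_nonneg_right hc₁ a1
    have a4 := mul_le_mul_of_nonneg_right hc₂ a2
    have a5 := mul_le_mul_of_nonneg_right hN a1
    have a6 := mul_le_mul_of_nonneg_right hN a2
    linarith
  refine ⟨R, y ^ 3 / (3 * (Real.log y / 2)), by positivity, hR, hRγ, ?_, ?_, ?_⟩
  · refine le_trans ?_ (num2 _ _ _ _ _ _ _ _ _ _ _ _ _ hrel b1 b2)
    have h1 : R.natDegree ≤ UU M q + (UU M q' + max D.A.natDegree D.B.natDegree * VV M q') := by
      rw [eR]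
      exact natDegree_add_le_of_degree_le
        ((natDegree_C_mul_le _ _).trans (E.minor_deg M q q' ι hι))
        ((natDegree_C_mul_le _ _).trans (E'.minor_deg M q q' ι hι))
    have h2 : ((max D.A.natDegree D.B.natDegree : ℕ) : ℝ) ≤ D.K₀ := by
      rw [Nat.cast_max]
      exact max_le D.hKd.1 D.hKd.2
    have h3 : (R.natDegree : ℝ) ≤
        UU M q + (UU M q' + (max D.A.natDegree D.B.natDegree : ℕ) * VV M q') := by
      exact_mod_cast h1
    have h4 := mul_le_mul_of_nonneg_right h2 (Nat.cast_nonneg (α := ℝ) (VV M q'))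
    have hk0 : 0 ≤ k := by have := hrel.hk; linarith
    exact mul_le_mul_of_nonneg_right (by linarith) hk0
  · refine le_trans ?_ (num3 _ _ _ _ _ _ _ _ _ _ _ _ _ hrel b1 b2)
    have h2 := mahlerStmt _ _ fun z hz => hbd z _ (E.minor_sup M q q' ι hι hM1 hqM z hz)
      (E'.minor_sup M q q' ι hι hM1 hqM z hz)
    rw [logMahlerMeasure_eq_log_MahlerMeasure]
    refine (Real.log_le_log (mahlerMeasure_pos_of_ne_zero hne) h2).trans (le_of_eq ?_)
    have hM' : (0 : ℝ) < M := by exact_mod_cast hM1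
    have hN0 : (0 : ℝ) < NN M q := by linarith
    rw [Real.log_mul (by positivity) (by positivity), Real.log_mul (by positivity) (by positivity),
      Real.log_pow, Real.log_pow, Real.log_pow]
    push_cast
    ring
  · refine (num4 _ _ _ _ _ _ _ _ _ _ hrel b1).trans ?_
    refine jensenStmt mahlerStmt _ _ _ _ (hS _ (hR _) (leadingCoeff_ne_zero.2 hne))
      (by positivity) fun z hz => hbd z _ ?_ ?_
    · exact E.minor_small M q q' ι (y ^ 2) (by omega) hqM hq'M t0 (by positivity) t4 z hz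
    · exact E'.minor_small M q q' ι (y ^ 2) (by omega) hqM hq'M t0 (by positivity) t4 z hz

end Conj

end LogPow
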