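import Pool.Agent.MP_655169_nt.H83.Lat

/-! The interpolation determinants on a parametrised conic: data and lattice facts. -/

open Polynomial Finset

namespace LogPow

/-- The data that do not depend on the choice of the root `β`. -/
structure Base where
  a : ℤ
  b : ℤ
  L : ℂ
  n₀ : ℕ
  hn₀ : 1 ≤ n₀
  A : ℂ[X]
  B : ℂ[X]
  t : ℂ
  hAB : B.eval t = L * A.eval t
  K₀ : ℝ
  K₁ : ℝ
  hK : 2 ≤ K₀
  hK1 : 1 ≤ K₁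
  hKL : ‖L‖ ≤ K₀
  hKL' : 1 ≤ K₀ * ‖L‖
  hKα : ((n₀ : ℝ) * Real.exp ‖L‖) ^ (1 + a.natAbs + b.natAbs) * K₁ ^ 8 ≤ K₀
  hKA : ∀ ζ : ℂ, ‖ζ‖ ≤ ‖t‖ + 1 → ‖A.eval ζ‖ ≤ K₀ ∧ ‖B.eval ζ‖ ≤ K₀
  hKA' : 1 ≤ K₀ * ‖A.eval t‖
  hKd : (A.natDegree : ℝ) ≤ K₀ ∧ (B.natDegree : ℝ) ≤ K₀

/-- A root `β` with a parametrisation `exp (β L) = G(t) / H(t)`. -/
structure Side (D : Base) where
  β : ℂ
  hβ : β ^ 2 = D.a * β + D.b
  hirr : ∀ m n : ℤ, (m : ℂ) + n * β = 0 → m = 0 ∧ n = 0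
  G : ℂ[X]
  H : ℂ[X]
  dG : G.natDegree ≤ 1
  dH : H.natDegree ≤ 1
  hGH : G.eval D.t = Complex.exp (β * D.L) * H.eval D.t
  hKβ : 1 + |(D.a : ℝ)| + ‖β‖ ≤ D.K₀
  hKw : ‖Complex.exp (β * D.L)‖ ≤ D.K₀
  hKw' : 1 ≤ D.K₀ * ‖Complex.exp (β * D.L)‖
  hKG : ∀ ζ : ℂ, ‖ζ‖ ≤ ‖D.t‖ + 1 → ‖G.eval ζ‖ ≤ D.K₁ ∧ ‖H.eval ζ‖ ≤ D.K₁
  hKH' : 1 ≤ D.K₀ * ‖H.eval D.t‖

namespace Base

variable (D : Base)

def sE (x y : ℤ × ℤ) : ℤ := x.1 * (y.2 - D.a * y.1) + D.b * x.2 * y.1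

noncomputable def l0 (M : ℕ) : ℝ := Real.log (2 * D.K₀ ^ 2 * M)

lemma one_le_cst : 1 ≤ ((D.n₀ : ℝ) * Real.exp ‖D.L‖) ^ (1 + D.a.natAbs + D.b.natAbs) :=
  one_le_pow₀ (one_le_mul_of_one_le_of_one_le (by exact_mod_cast D.hn₀)
    (Real.one_le_exp (norm_nonneg _)))

lemma K1_le : D.K₁ ≤ D.K₀ := by
  have h1 := D.hK1
  have h2 : D.K₁ ≤ D.K₁ ^ 8 := le_self_pow₀ h1 (by norm_num)
  exact h2.trans ((le_mul_of_one_le_left (by positivity) D.one_le_cst).trans D.hKα)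

lemma cst_le : ((D.n₀ : ℝ) * Real.exp ‖D.L‖) ^ (1 + D.a.natAbs + D.b.natAbs) ≤ D.K₀ :=
  (le_mul_of_one_le_right (by positivity) (one_le_pow₀ D.hK1)).trans D.hKα

lemma sE_le (M : ℕ) (x y : ℤ × ℤ) (hx : x ∈ box M) (hy : y ∈ box M) :
    (D.sE x y).natAbs ≤ (1 + D.a.natAbs + D.b.natAbs) * M ^ 2 := by
  rw [LatL.mem_box] at hx hy
  have e : D.sE x y = x.1 * y.2 - D.a * (x.1 * y.1) + D.b * (x.2 * y.1) := by
    unfold Base.sE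
    ring
  have h1 : (x.1 * y.2).natAbs ≤ M ^ 2 := by
    rw [Int.natAbs_mul, sq]
    exact Nat.mul_le_mul hx.1 hy.2
  have h2 : (D.a * (x.1 * y.1)).natAbs ≤ D.a.natAbs * M ^ 2 := by
    rw [Int.natAbs_mul, Int.natAbs_mul, sq]
    exact Nat.mul_le_mul_left _ (Nat.mul_le_mul hx.1 hy.1)
  have h3 : (D.b * (x.2 * y.1)).natAbs ≤ D.b.natAbs * M ^ 2 := by
    rw [Int.natAbs_mul, Int.natAbs_mul, sq]
    exact Nat.mul_le_mul_left _ (Nat.mul_le_mul hx.2 hy.1)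
  have h4 := Int.natAbs_add_le (x.1 * y.2 - D.a * (x.1 * y.1)) (D.b * (x.2 * y.1))
  have h5 := Int.natAbs_sub_le (x.1 * y.2) (D.a * (x.1 * y.1))
  rw [e, add_mul, add_mul, one_mul]
  omega

end Base

namespace Side

variable {D : Base} (E : Side D)

noncomputable def w : ℂ := Complex.exp (E.β * D.L)
noncomputable def lam (x : ℤ × ℤ) : ℂ := (x.1 : ℂ) + (x.2 : ℂ) * E.β
noncomputable def mu (y : ℤ × ℤ) : ℂ := ((y.2 - D.a * y.1 : ℤ) : ℂ) + (y.1 : ℂ) * E.β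

noncomputable def fn (c : (ℤ × ℤ) × ℕ) : ℂ → ℂ :=
  fun z => z ^ c.2 * Complex.exp (E.lam c.1 * D.L * z)

/-- The entry polynomial, homogenised. -/
noncomputable def entry (M : ℕ) (r c : (ℤ × ℤ) × ℕ) : ℂ[X] :=
  C ((D.n₀ : ℂ) ^ ((1 + D.a.natAbs + D.b.natAbs) * M ^ 2) * Complex.exp D.L ^ (D.sE c.1 r.1)) *
    (E.G ^ (tri (c.1.1 + r.1.1) + tri (c.1.2 + r.1.2)) *
      E.H ^ (uu c.1 + uu r.1 - (tri (c.1.1 + r.1.1) + tri (c.1.2 + r.1.2)))) *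
    ∑ k ∈ Finset.range (r.2 + 1),
      C ((r.2.choose k : ℂ) * (c.2.descFactorial k : ℂ) * E.mu r.1 ^ (c.2 - k) *
          E.lam c.1 ^ (r.2 - k)) * D.B ^ (r.2 - k) * D.A ^ k

noncomputable def rowF (M : ℕ) (r : (ℤ × ℤ) × ℕ) : ℂ :=
  (D.n₀ : ℂ) ^ ((1 + D.a.natAbs + D.b.natAbs) * M ^ 2) *
    (E.w ^ (tri r.1.1 + tri r.1.2) * E.H.eval D.t ^ uu r.1) * D.A.eval D.t ^ r.2

noncomputable def colF (c : (ℤ × ℤ) × ℕ) : ℂ :=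
  E.w ^ (tri c.1.1 + tri c.1.2) * E.H.eval D.t ^ uu c.1

noncomputable def minor (M q q' : ℕ) (ι : idx M q → idx M q') : ℂ[X] :=
  (Matrix.of fun i j : idx M q => E.entry M (ι i).1 j.1).det

lemma minor_eval (M q q' : ℕ) (ι : idx M q → idx M q') (z : ℂ) : (E.minor M q q' ι).eval z =
    (Matrix.of fun i j : idx M q => (E.entry M (ι i).1 j.1).eval z).det := by
  unfold Side.minor
  rw [← coe_evalRingHom, RingHom.map_det]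
  rfl

lemma lam_mu (x y : ℤ × ℤ) :
    E.lam x * E.mu y = (D.sE x y : ℂ) + ((x.1 * y.1 + x.2 * y.2 : ℤ) : ℂ) * E.β := by
  unfold Side.lam Side.mu Base.sE
  push_cast
  linear_combination ((x.2 : ℂ) * (y.1 : ℂ)) * E.hβ

lemma lin_le (m n : ℤ) (R : ℝ) (hm : ‖(m : ℂ)‖ ≤ R) (hn : ‖(n : ℂ)‖ ≤ R) :
    ‖(m : ℂ) + n * E.β‖ ≤ D.K₀ * R ∧ ‖(m : ℂ) - D.a * n + n * E.β‖ ≤ D.K₀ * R := by
  have h3 := E.hKβ
  have h6 : 0 ≤ R := (norm_nonneg _).trans hm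
  have h4 : ‖(m : ℂ) + n * E.β‖ ≤ ‖(m : ℂ)‖ + ‖(n : ℂ)‖ * ‖E.β‖ := by
    rw [← norm_mul]
    exact norm_add_le _ _
  have h4' : ‖(m : ℂ) - D.a * n + n * E.β‖ ≤
      ‖(m : ℂ)‖ + |(D.a : ℝ)| * ‖(n : ℂ)‖ + ‖(n : ℂ)‖ * ‖E.β‖ := by
    rw [← norm_mul, ← Complex.norm_intCast D.a, ← norm_mul]
    exact le_trans (norm_add_le _ _) (add_le_add_left (norm_sub_le _ _) _)
  have h5 : ‖(n : ℂ)‖ * ‖E.β‖ ≤ R * ‖E.β‖ := mul_le_mul_of_nonneg_right hn (norm_nonneg _)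
  have h7 : |(D.a : ℝ)| * ‖(n : ℂ)‖ ≤ |(D.a : ℝ)| * R :=
    mul_le_mul_of_nonneg_left hn (abs_nonneg _)
  have h8 := mul_le_mul_of_nonneg_right h3 h6
  have h9 := mul_nonneg (abs_nonneg (D.a : ℝ)) h6
  constructor <;> nlinarith

lemma lam_le (M : ℕ) (x : ℤ × ℤ) (hx : x ∈ box M) : ‖E.lam x‖ ≤ D.K₀ * M := by
  rw [LatL.mem_box] at hx
  exact (E.lin_le _ _ _ (LatL.norm_int_le M _ hx.1) (LatL.norm_int_le M _ hx.2)).1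

lemma mu_le (M : ℕ) (x : ℤ × ℤ) (hx : x ∈ box M) : ‖E.mu x‖ ≤ D.K₀ * M := by
  rw [LatL.mem_box] at hx
  have := (E.lin_le _ _ _ (LatL.norm_int_le M _ hx.2) (LatL.norm_int_le M _ hx.1)).2
  unfold Side.mu
  push_cast
  exact this

/-- The norm form takes nonzero integer values. -/
lemma one_le_norm (m n : ℤ) (h : ¬ (m = 0 ∧ n = 0)) :
    1 ≤ ‖(m : ℂ) + n * E.β‖ * ‖(m : ℂ) + D.a * n - n * E.β‖ := by
  have e : ((m : ℂ) + n * E.β) * ((m : ℂ) + D.a * n - n * E.β) =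
      ((m ^ 2 + D.a * m * n - D.b * n ^ 2 : ℤ) : ℂ) := by
    push_cast
    linear_combination (-(n : ℂ) ^ 2) * E.hβ
  have h0 : ((m : ℂ) + n * E.β) * ((m : ℂ) + D.a * n - n * E.β) ≠ 0 := by
    refine mul_ne_zero (fun h1 => h (E.hirr m n h1)) fun h1 => h ?_
    obtain ⟨h2, h3⟩ := E.hirr (m + D.a * n) (-n) (by push_cast; linear_combination h1)
    have h4 : n = 0 := neg_eq_zero.1 h3
    rw [h4, mul_zero, add_zero] at h2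
    exact ⟨h2, h4⟩
  rw [← norm_mul, e, Complex.norm_intCast, ← Int.cast_abs]
  rw [e] at h0
  exact_mod_cast Int.one_le_abs (by exact_mod_cast h0)

lemma diff_le {M : ℕ} {u v : ℤ} (hu : u.natAbs ≤ M) (hv : v.natAbs ≤ M) :
    ‖((u - v : ℤ) : ℂ)‖ ≤ 2 * M := by
  have := LatL.norm_int_le (2 * M) (u - v) (by omega)
  push_cast at this ⊢
  exact this

lemma lam_sep (M : ℕ) (x y : ℤ × ℤ) (hx : x ∈ box M) (hy : y ∈ box M) (h : x ≠ y) :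
    1 ≤ 2 * D.K₀ * M * ‖E.lam x - E.lam y‖ := by
  rw [LatL.mem_box] at hx hy
  have e : E.lam x - E.lam y = ((x.1 - y.1 : ℤ) : ℂ) + ((x.2 - y.2 : ℤ) : ℂ) * E.β := by
    unfold Side.lam
    push_cast
    ring
  have h1 := E.one_le_norm (x.1 - y.1) (x.2 - y.2) fun h0 =>
    h (Prod.ext (sub_eq_zero.1 h0.1) (sub_eq_zero.1 h0.2))
  have h2 := (E.lin_le (x.1 - y.1) (y.2 - x.2) _ (diff_le hx.1 hy.1) (diff_le hy.2 hx.2)).2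
  have e2 : ((x.1 - y.1 : ℤ) : ℂ) + D.a * ((x.2 - y.2 : ℤ) : ℂ) - ((x.2 - y.2 : ℤ) : ℂ) * E.β =
      ((x.1 - y.1 : ℤ) : ℂ) - D.a * ((y.2 - x.2 : ℤ) : ℂ) + ((y.2 - x.2 : ℤ) : ℂ) * E.β := by
    push_cast
    ring
  rw [e2, ← e] at h1
  nlinarith [mul_le_mul_of_nonneg_left h2 (norm_nonneg (E.lam x - E.lam y))]

lemma mu_sep (M : ℕ) (x y : ℤ × ℤ) (hx : x ∈ box M) (hy : y ∈ box M) (h : x ≠ y) :
    1 ≤ 2 * D.K₀ * M * ‖E.mu x - E.mu y‖ := by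
  rw [LatL.mem_box] at hx hy
  have e : E.mu x - E.mu y =
      ((x.2 - y.2 - D.a * (x.1 - y.1) : ℤ) : ℂ) + ((x.1 - y.1 : ℤ) : ℂ) * E.β := by
    unfold Side.mu
    push_cast
    ring
  have h1 := E.one_le_norm (x.2 - y.2 - D.a * (x.1 - y.1)) (x.1 - y.1) fun h0 => by
    have h1 := h0.1
    rw [h0.2, mul_zero, sub_zero] at h1
    exact h (Prod.ext (sub_eq_zero.1 h0.2) (sub_eq_zero.1 h1))
  have h2 := (E.lin_le (x.2 - y.2) (y.1 - x.1) _ (diff_le hx.2 hy.2) (diff_le hy.1 hx.1)).1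
  have e2 : ((x.2 - y.2 - D.a * (x.1 - y.1) : ℤ) : ℂ) + D.a * ((x.1 - y.1 : ℤ) : ℂ) -
      ((x.1 - y.1 : ℤ) : ℂ) * E.β = ((x.2 - y.2 : ℤ) : ℂ) + ((y.1 - x.1 : ℤ) : ℂ) * E.β := by
    push_cast
    ring
  rw [e2, ← e] at h1
  nlinarith [mul_le_mul_of_nonneg_left h2 (norm_nonneg (E.mu x - E.mu y))]

end Side

end LogPow
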