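import Pool.Agent.MP_655169_nt.H78.Defs
import Pool.Agent.MP_655169_nt.H83.Eval
import Pool.Agent.MP_655169_nt.H83.EntBd
import Pool.Agent.MP_655169_nt.H83.IntDeg
import Pool.Agent.MP_655169_nt.H83.HtMinor

/-! Value, size, degree and Lipschitz bounds for the homogenised entries. -/

open Polynomial Finset

namespace LogPow

namespace Side

variable {D : Base} (E : Side D)

theorem entry_eval (M : ℕ) (r c : (ℤ × ℤ) × ℕ) : (E.entry M r c).eval D.t =
    E.rowF M r * E.colF c * iteratedDeriv r.2 (E.fn c) (E.mu r.1) := by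
  have hw : E.w ≠ 0 := Complex.exp_ne_zero _
  have hAB : D.B.eval D.t = D.L * D.A.eval D.t := D.hAB
  have hGH : E.G.eval D.t = E.w * E.H.eval D.t := E.hGH
  have he : Complex.exp (E.lam c.1 * D.L * E.mu r.1) =
      Complex.exp D.L ^ (D.sE c.1 r.1) * (E.w ^ (c.1.1 * r.1.1) * E.w ^ (c.1.2 * r.1.2)) := by
    rw [← zpow_add₀ hw, Side.w, ← Complex.exp_int_mul, ← Complex.exp_int_mul, ← Complex.exp_add,
      mul_right_comm, E.lam_mu]
    congr 1
    ring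
  have hp : (E.w * E.H.eval D.t) ^ (tri (c.1.1 + r.1.1) + tri (c.1.2 + r.1.2)) *
      E.H.eval D.t ^ (uu c.1 + uu r.1 - (tri (c.1.1 + r.1.1) + tri (c.1.2 + r.1.2))) =
      E.w ^ (tri (c.1.1 + r.1.1) + tri (c.1.2 + r.1.2)) *
        (E.H.eval D.t ^ uu c.1 * E.H.eval D.t ^ uu r.1) := by
    rw [mul_pow, mul_assoc, ← pow_add, Nat.add_sub_cancel' (LatL.tri_le _ _), pow_add _ (uu _)]
  unfold Side.entry Side.rowF Side.colF Side.fn
  rw [EvalL.der, he]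
  simp only [eval_mul, eval_C, eval_pow, eval_finset_sum, hAB, hGH, hp, mul_sum]
  refine sum_congr rfl fun k hk => ?_
  obtain ⟨j, hj⟩ := Nat.exists_eq_add_of_le (Nat.lt_succ_iff.1 (mem_range.1 hk))
  rw [pow_add E.w, EvalL.pw latStmt hw, EvalL.pw latStmt hw, hj, Nat.add_sub_cancel_left]
  ring

theorem entry_deg (M : ℕ) (r c : (ℤ × ℤ) × ℕ) :
    (E.entry M r c).natDegree ≤ uu c.1 + (uu r.1 + max D.A.natDegree D.B.natDegree * r.2) := by
  rw [← add_assoc]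
  refine natDegree_mul_le.trans (add_le_add ((natDegree_C_mul_le _ _).trans
    (natDegree_mul_le.trans ?_)) (natDegree_sum_le_of_forall_le _ _ fun k hk => ?_))
  · refine (add_le_add (natDegree_pow_le_of_le _ E.dG) (natDegree_pow_le_of_le _ E.dH)).trans ?_
    rw [mul_one, mul_one, Nat.add_sub_cancel' (LatL.tri_le _ _)]
  have h1 : k ≤ r.2 := Nat.lt_succ_iff.1 (mem_range.1 hk)
  rw [mul_assoc]
  refine (natDegree_C_mul_le _ _).trans (natDegree_mul_le.trans ?_)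
  have h2 := natDegree_pow_le_of_le (r.2 - k) (le_max_right D.A.natDegree D.B.natDegree)
  have h3 := natDegree_pow_le_of_le k (le_max_left D.A.natDegree D.B.natDegree)
  refine (add_le_add h2 h3).trans (le_of_eq ?_)
  rw [← add_mul, Nat.sub_add_cancel h1, mul_comm]

theorem minor_deg (M q q' : ℕ) (ι : idx M q → idx M q') (hι : Function.Injective ι) :
    (E.minor M q q' ι).natDegree ≤
      UU M q + (UU M q' + max D.A.natDegree D.B.natDegree * VV M q') := by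
  rw [Side.minor, Matrix.det_apply']
  refine natDegree_sum_le_of_forall_le _ _ fun σ _ => ?_
  rw [← C_eq_intCast]
  refine (natDegree_C_mul_le _ _).trans ((natDegree_prod_le _ _).trans
    ((sum_le_sum fun i _ => E.entry_deg M (ι (σ i)).1 i.1).trans ?_))
  rw [sum_add_distrib, sum_coe_sort (idx M q) fun p => uu p.1, UU, UU, VV, mul_sum,
    ← sum_add_distrib]
  exact Nat.add_le_add_left (IntDegL.sum_le (ι ∘ σ) (hι.comp σ.injective)
    fun p => uu p.1 + max D.A.natDegree D.B.natDegree * p.2) _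

lemma const_le (D : Base) (M : ℕ) (s : ℤ)
    (hs : s.natAbs ≤ (1 + D.a.natAbs + D.b.natAbs) * M ^ 2) :
    ‖(D.n₀ : ℂ) ^ ((1 + D.a.natAbs + D.b.natAbs) * M ^ 2) * Complex.exp D.L ^ s‖ ≤
      (((D.n₀ : ℝ) * Real.exp ‖D.L‖) ^ (1 + D.a.natAbs + D.b.natAbs)) ^ (M ^ 2) := by
  set c := 1 + D.a.natAbs + D.b.natAbs with hc
  have h1 : ‖Complex.exp D.L ^ s‖ ≤ Real.exp ‖D.L‖ ^ (c * M ^ 2) := by
    rw [← Complex.exp_int_mul, ← Real.exp_nat_mul]
    refine (Complex.norm_exp_le_exp_norm _).trans (Real.exp_le_exp.2 ?_)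
    rw [norm_mul]
    refine mul_le_mul_of_nonneg_right ?_ (norm_nonneg _)
    have : ‖(s : ℂ)‖ = (s.natAbs : ℝ) := by
      rw [Complex.norm_intCast, Nat.cast_natAbs, Int.cast_abs]
    rw [this]
    exact_mod_cast hs
  rw [norm_mul, norm_pow, Complex.norm_natCast]
  calc (D.n₀ : ℝ) ^ (c * M ^ 2) * ‖Complex.exp D.L ^ s‖
      ≤ (D.n₀ : ℝ) ^ (c * M ^ 2) * Real.exp ‖D.L‖ ^ (c * M ^ 2) :=
        mul_le_mul_of_nonneg_left h1 (by positivity)
    _ = (((D.n₀ : ℝ) * Real.exp ‖D.L‖) ^ c) ^ (M ^ 2) := by rw [← mul_pow, pow_mul]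

theorem entry_le (M : ℕ) (r c : (ℤ × ℤ) × ℕ) (ζ : ℂ) (hM : 1 ≤ M) (hr : r.1 ∈ box M)
    (hc : c.1 ∈ box M) (hτ : c.2 ≤ M ^ 2) (hζ : ‖ζ‖ ≤ ‖D.t‖ + 1) :
    ‖(E.entry M r c).eval ζ‖ ≤ D.K₀ ^ (M ^ 2) * (2 * D.K₀ ^ 2 * M) ^ (r.2 + c.2) := by
  have hK : 2 ≤ D.K₀ := D.hK
  have hK1 := D.hK1
  have hM1 : (1 : ℝ) ≤ M := by exact_mod_cast hM
  have hρ : 1 ≤ D.K₀ * M := by nlinarith
  obtain ⟨hA, hB⟩ := D.hKA ζ hζ
  obtain ⟨hG, hH⟩ := E.hKG ζ hζ
  have hτ' : (c.2 : ℝ) ≤ (D.K₀ * M) ^ 2 := by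
    have h1 : (c.2 : ℝ) ≤ (M : ℝ) ^ 2 := by exact_mod_cast hτ
    have h2 : (M : ℝ) ≤ D.K₀ * M := by nlinarith
    exact h1.trans (pow_le_pow_left₀ (by positivity) h2 2)
  have hconst := const_le D M (D.sE c.1 r.1) (D.sE_le M c.1 r.1 hc hr)
  have hpow : ‖E.G.eval ζ ^ (tri (c.1.1 + r.1.1) + tri (c.1.2 + r.1.2)) *
      E.H.eval ζ ^ (uu c.1 + uu r.1 - (tri (c.1.1 + r.1.1) + tri (c.1.2 + r.1.2)))‖ ≤
      (D.K₁ ^ 8) ^ (M ^ 2) := by
    rw [norm_mul, norm_pow, norm_pow]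
    refine (mul_le_mul (pow_le_pow_left₀ (norm_nonneg _) hG _)
      (pow_le_pow_left₀ (norm_nonneg _) hH _) (by positivity) (by positivity)).trans ?_
    rw [← pow_add, Nat.add_sub_cancel' (LatL.tri_le _ _), ← pow_mul]
    refine pow_le_pow_right₀ hK1 ?_
    have h3 := LatL.uu_box M r.1 hr
    have h4 := LatL.uu_box M c.1 hc
    omega
  have hsum : ‖∑ k ∈ range (r.2 + 1), (r.2.choose k : ℂ) * (c.2.descFactorial k : ℂ) *
      E.mu r.1 ^ (c.2 - k) * E.lam c.1 ^ (r.2 - k) * D.B.eval ζ ^ (r.2 - k) * D.A.eval ζ ^ k‖ ≤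
      (2 * D.K₀ ^ 2 * M) ^ (r.2 + c.2) := by
    refine (norm_sum_le _ _).trans ?_
    have h1 : ∀ k ∈ range (r.2 + 1), ‖(r.2.choose k : ℂ) * (c.2.descFactorial k : ℂ) *
        E.mu r.1 ^ (c.2 - k) * E.lam c.1 ^ (r.2 - k) * D.B.eval ζ ^ (r.2 - k) *
        D.A.eval ζ ^ k‖ ≤ (r.2.choose k : ℝ) * ((D.K₀ * M) ^ (r.2 + c.2) * D.K₀ ^ r.2) := by
      intro k hk
      exact EntBdL.term_le r.2 c.2 k _ _ _ _ _ _ hρ (by linarith)
        (Nat.lt_succ_iff.1 (mem_range.1 hk)) hτ' (E.mu_le M r.1 hr) (E.lam_le M c.1 hc) hA hB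
    refine (sum_le_sum h1).trans ?_
    rw [← sum_mul, ← Nat.cast_sum, Nat.sum_range_choose]
    push_cast
    calc (2 : ℝ) ^ r.2 * ((D.K₀ * M) ^ (r.2 + c.2) * D.K₀ ^ r.2)
        = (2 * D.K₀) ^ r.2 * (D.K₀ * M) ^ (r.2 + c.2) := by rw [mul_pow 2]; ring
      _ ≤ (2 * D.K₀) ^ (r.2 + c.2) * (D.K₀ * M) ^ (r.2 + c.2) := by
          refine mul_le_mul_of_nonneg_right ?_ (by positivity)
          exact pow_le_pow_right₀ (by linarith) (Nat.le_add_right _ _)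
      _ = (2 * D.K₀ ^ 2 * M) ^ (r.2 + c.2) := by rw [← mul_pow]; congr 1; ring
  have heval : (E.entry M r c).eval ζ =
      ((D.n₀ : ℂ) ^ ((1 + D.a.natAbs + D.b.natAbs) * M ^ 2) * Complex.exp D.L ^ (D.sE c.1 r.1)) *
      (E.G.eval ζ ^ (tri (c.1.1 + r.1.1) + tri (c.1.2 + r.1.2)) *
        E.H.eval ζ ^ (uu c.1 + uu r.1 - (tri (c.1.1 + r.1.1) + tri (c.1.2 + r.1.2)))) *
      ∑ k ∈ range (r.2 + 1), (r.2.choose k : ℂ) * (c.2.descFactorial k : ℂ) *
        E.mu r.1 ^ (c.2 - k) * E.lam c.1 ^ (r.2 - k) * D.B.eval ζ ^ (r.2 - k) *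
        D.A.eval ζ ^ k := by
    simp only [Side.entry, eval_mul, eval_C, eval_pow, eval_finsetSum]
  rw [heval, norm_mul, norm_mul]
  refine mul_le_mul ?_ hsum (norm_nonneg _) (by positivity)
  refine (mul_le_mul hconst hpow (norm_nonneg _) (by positivity)).trans ?_
  rw [← mul_pow]
  exact pow_le_pow_left₀ (by positivity) D.hKα _

theorem entry_lip (M : ℕ) (r c : (ℤ × ℤ) × ℕ) (ζ : ℂ) (hM : 1 ≤ M) (hr : r.1 ∈ box M)
    (hc : c.1 ∈ box M) (hσ : r.2 ≤ M ^ 2) (hτ : c.2 ≤ M ^ 2) (hζ : ‖ζ - D.t‖ < 1) :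
    ‖(E.entry M r c).eval ζ - (E.entry M r c).eval D.t‖ ≤
      2 * Real.exp (7 * M ^ 2 * D.l0 M) * ‖ζ - D.t‖ := by
  have hK : 2 ≤ D.K₀ := D.hK
  have hM1 : (1 : ℝ) ≤ M := by exact_mod_cast hM
  have hb1 : D.K₀ ≤ 2 * D.K₀ ^ 2 * M := by nlinarith
  have hb2 : 1 ≤ 2 * D.K₀ ^ 2 * M := by nlinarith
  have hE : Real.exp (7 * M ^ 2 * D.l0 M) = (2 * D.K₀ ^ 2 * M) ^ (7 * M ^ 2) := by
    rw [show (7 * M ^ 2 * D.l0 M : ℝ) = ((7 * M ^ 2 : ℕ) : ℝ) * D.l0 M by push_cast; ring,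
      Real.exp_nat_mul, Base.l0, Real.exp_log (by linarith)]
  have hbd : ∀ z ∈ Metric.ball D.t 1, ‖(E.entry M r c).eval z‖ ≤
      Real.exp (7 * M ^ 2 * D.l0 M) := by
    intro z hz
    have hz1 : ‖z‖ ≤ ‖D.t‖ + 1 := by
      have h1 : ‖z - D.t‖ < 1 := by simpa [dist_eq_norm] using hz
      have h2 : ‖z‖ ≤ ‖D.t‖ + ‖z - D.t‖ := by
        simpa using norm_add_le D.t (z - D.t)
      linarith
    refine (E.entry_le M r c z hM hr hc hτ hz1).trans ?_
    rw [hE]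
    have hK0 : 0 ≤ D.K₀ := by linarith
    calc D.K₀ ^ (M ^ 2) * (2 * D.K₀ ^ 2 * M) ^ (r.2 + c.2)
        ≤ (2 * D.K₀ ^ 2 * M) ^ (M ^ 2) * (2 * D.K₀ ^ 2 * M) ^ (r.2 + c.2) := by gcongr
      _ ≤ (2 * D.K₀ ^ 2 * M) ^ (7 * M ^ 2) := by
          rw [← pow_add]
          exact pow_le_pow_right₀ hb2 (by omega)
  have hmaps : Set.MapsTo (fun z => (E.entry M r c).eval z) (Metric.ball D.t 1)
      (Metric.closedBall ((E.entry M r c).eval D.t) (2 * Real.exp (7 * M ^ 2 * D.l0 M))) := by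
    intro z hz
    rw [Metric.mem_closedBall, dist_eq_norm]
    have h1 := hbd z hz
    have h2 := hbd D.t (Metric.mem_ball_self one_pos)
    have h3 := norm_sub_le ((E.entry M r c).eval z) ((E.entry M r c).eval D.t)
    linarith
  have := Complex.dist_le_div_mul_dist_of_mapsTo_ball
    (f := fun z => (E.entry M r c).eval z) (c := D.t) (R₁ := 1) (z := ζ)
    (E.entry M r c).differentiable.differentiableOn hmaps
    (by rw [Metric.mem_ball, dist_eq_norm]; exact hζ)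
  simpa only [dist_eq_norm, div_one] using this

theorem minor_sup (M q q' : ℕ) (ι : idx M q → idx M q') (hι : Function.Injective ι) (hM : 1 ≤ M)
    (hq : q ≤ M) (z : ℂ) (hz : ‖z‖ = 1) : NN M q * ‖(E.minor M q q' ι).eval z‖ ≤
      (NN M q : ℝ) ^ NN M q * (D.K₀ ^ (NN M q * M ^ 2) *
        (2 * D.K₀ ^ 2 * M) ^ (VV M q + VV M q')) := by
  have hK := D.hK
  have hK0 : 0 < D.K₀ := by linarith
  have hM' : (1 : ℝ) ≤ M := by exact_mod_cast hM
  have hb1 : (1 : ℝ) ≤ 2 * D.K₀ ^ 2 * M := by nlinarith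
  have hN : Fintype.card (idx M q) = NN M q := Fintype.card_coe _
  rw [E.minor_eval]
  refine (mul_le_mul_of_nonneg_left (HtMinorL.det_le _
    (fun i => D.K₀ ^ (M ^ 2) * (2 * D.K₀ ^ 2 * M) ^ (ι i).1.2)
    (fun j => (2 * D.K₀ ^ 2 * M) ^ j.1.2) fun i j => ?_) (Nat.cast_nonneg _)).trans ?_
  · have h3 := (LatL.mem_idx M q' _).1 (ι i).2
    have h4 := (LatL.mem_idx M q _).1 j.2
    have h5 : j.1.2 ≤ M ^ 2 :=
      h4.2.le.trans ((LatL.mult_le M q _).trans (Nat.pow_le_pow_left hq 2))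
    have h6 := E.entry_le M (ι i).1 j.1 z hM h3.1 h4.1 h5 (by
      rw [hz]
      linarith [norm_nonneg D.t])
    rw [pow_add, ← mul_assoc] at h6
    exact h6
  · rw [prod_mul_distrib, prod_const, card_univ, hN, prod_pow_eq_pow_sum, prod_pow_eq_pow_sum,
      ← pow_mul, mul_assoc (D.K₀ ^ _), ← pow_add, mul_comm (M ^ 2), ← mul_assoc]
    have h3 : (NN M q : ℝ) * ((NN M q).factorial : ℝ) ≤ (NN M q : ℝ) ^ NN M q := by
      generalize NN M q = n
      rcases n with _ | n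
      · simp
      · have h : (n + 1) * (n + 1).factorial ≤ (n + 1) ^ (n + 1) ∨ n = 0 := by
          rcases n with _ | n
          · exact Or.inr rfl
          · left
            have h1 : ∀ m : ℕ, (m + 1).factorial ≤ (m + 1) ^ m := fun m => by
              induction m with
              | zero => simp
              | succ m ih =>
                rw [Nat.factorial_succ, pow_succ']
                exact Nat.mul_le_mul_left _ (ih.trans (Nat.pow_le_pow_left (by omega) _))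
            rw [pow_succ' (n + 1 + 1)]
            exact Nat.mul_le_mul_left _ (h1 _)
        rcases h with h | rfl
        · exact_mod_cast h
        · simp
    have h4 : ∑ i, (ι i).1.2 + ∑ j : idx M q, j.1.2 ≤ VV M q + VV M q' := by
      have h5 := HtMinorL.sum_le M q q' ι hι
      have h6 : ∑ j : idx M q, j.1.2 = VV M q := sum_coe_sort (idx M q) fun p => p.2
      omega
    exact mul_le_mul h3 (mul_le_mul_of_nonneg_left (pow_le_pow_right₀ hb1 h4) (by positivity))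
      (by positivity) (by positivity)

end Side

end LogPow
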