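import Pool.Agent.MP_655169_nt.H78.Ent

/-! The two conjugate minors are `P + β Q` and `P + β' Q` with `P, Q` integral. -/

open Polynomial Finset

namespace LogPow

/-- Pairs `(P + β Q, P + (a - β) Q)` with `P, Q` integral. -/
def conjRing (S : Subring ℂ) (β : ℂ) (a b : ℤ) (h : β ^ 2 = a * β + b) :
    Subring (ℂ[X] × ℂ[X]) where
  carrier := {z | ∃ P ∈ liftsRing S.subtype, ∃ Q ∈ liftsRing S.subtype,
    z.1 = P + C β * Q ∧ z.2 = P + C (a - β) * Q}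
  mul_mem' := by
    rintro z z' ⟨P, hP, Q, hQ, e1, e2⟩ ⟨P', hP', Q', hQ', e1', e2'⟩
    have hC : (C β : ℂ[X]) ^ 2 = a * C β + b := by
      rw [← C_pow, h]
      simp
    refine ⟨P * P' + b * (Q * Q'), add_mem (mul_mem hP hP') (mul_mem (intCast_mem _ _)
      (mul_mem hQ hQ')), P * Q' + Q * P' + a * (Q * Q'), add_mem (add_mem (mul_mem hP hQ')
      (mul_mem hQ hP')) (mul_mem (intCast_mem _ _) (mul_mem hQ hQ')), ?_, ?_⟩
    · rw [Prod.fst_mul, e1, e1']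
      linear_combination (Q * Q') * hC
    · rw [Prod.snd_mul, e2, e2']
      simp only [map_sub, map_intCast]
      linear_combination (Q * Q') * hC
  one_mem' := ⟨1, one_mem _, 0, zero_mem _, by simp, by simp⟩
  add_mem' := by
    rintro z z' ⟨P, hP, Q, hQ, e1, e2⟩ ⟨P', hP', Q', hQ', e1', e2'⟩
    refine ⟨P + P', add_mem hP hP', Q + Q', add_mem hQ hQ', ?_, ?_⟩
    · rw [Prod.fst_add, e1, e1']
      ring
    · rw [Prod.snd_add, e2, e2']
      ring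
  zero_mem' := ⟨0, zero_mem _, 0, zero_mem _, by simp, by simp⟩
  neg_mem' := by
    rintro z ⟨P, hP, Q, hQ, e1, e2⟩
    refine ⟨-P, neg_mem hP, -Q, neg_mem hQ, ?_, ?_⟩
    · rw [Prod.fst_neg, e1]
      ring
    · rw [Prod.snd_neg, e2]
      ring

section
variable {S : Subring ℂ} {β : ℂ} {a b : ℤ} {h : β ^ 2 = a * β + b}

theorem conj_diag {P : ℂ[X]} (hP : P ∈ liftsRing S.subtype) : (P, P) ∈ conjRing S β a b h :=
  ⟨P, hP, 0, zero_mem _, by simp, by simp⟩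

theorem conj_lin {p q : ℂ} (hp : p ∈ S) (hq : q ∈ S) :
    ((C (p + q * β), C (p + q * (a - β))) : ℂ[X] × ℂ[X]) ∈ conjRing S β a b h :=
  ⟨C p, IntDegL.C_mem hp, C q, IntDegL.C_mem hq, by simp [mul_comm], by simp [mul_comm]⟩

end

theorem cst_mem2 (D : Base) {S : Subring ℂ} (h₁ : (D.n₀ : ℂ) * Complex.exp D.L ∈ S)
    (h₂ : (D.n₀ : ℂ) * Complex.exp (-D.L) ∈ S) (N : ℕ) (s : ℤ) (h : s.natAbs ≤ N) :
    (D.n₀ : ℂ) ^ N * Complex.exp D.L ^ s ∈ S := by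
  obtain ⟨t, rfl⟩ := Nat.exists_eq_add_of_le h
  obtain ⟨n, rfl | rfl⟩ := Int.eq_nat_or_neg s
  · have e : (D.n₀ : ℂ) ^ ((n : ℤ).natAbs + t) * Complex.exp D.L ^ (n : ℤ) =
        ((D.n₀ : ℂ) * Complex.exp D.L) ^ n * (D.n₀ : ℂ) ^ t := by
      rw [Int.natAbs_natCast, zpow_natCast]
      ring
    rw [e]
    exact mul_mem (pow_mem h₁ _) (pow_mem (natCast_mem _ _) _)
  · have e : (D.n₀ : ℂ) ^ ((-(n : ℤ)).natAbs + t) * Complex.exp D.L ^ (-(n : ℤ)) =
        ((D.n₀ : ℂ) * Complex.exp (-D.L)) ^ n * (D.n₀ : ℂ) ^ t := by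
      rw [Int.natAbs_neg, Int.natAbs_natCast, zpow_neg, zpow_natCast, Complex.exp_neg, ← inv_pow]
      ring
    rw [e]
    exact mul_mem (pow_mem h₂ _) (pow_mem (natCast_mem _ _) _)

/-- The integrality hypotheses on a pair of conjugate sides. -/
structure Conj {D : Base} (E E' : Side D) (S : Subring ℂ) : Prop where
  hβ : E'.β = D.a - E.β
  h₁ : (D.n₀ : ℂ) * Complex.exp D.L ∈ S
  h₂ : (D.n₀ : ℂ) * Complex.exp (-D.L) ∈ S
  hA : InS S D.A
  hB : InS S D.B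
  hG : (E.G, E'.G) ∈ conjRing S E.β D.a D.b E.hβ
  hH : (E.H, E'.H) ∈ conjRing S E.β D.a D.b E.hβ

namespace Conj

variable {D : Base} {E E' : Side D} {S : Subring ℂ} (c : Conj E E' S)
include c

theorem entry_mem (M : ℕ) (r j : (ℤ × ℤ) × ℕ) (hr : r.1 ∈ box M) (hj : j.1 ∈ box M) :
    (E.entry M r j, E'.entry M r j) ∈ conjRing S E.β D.a D.b E.hβ := by
  have hl : ((C (E.lam j.1), C (E'.lam j.1)) : ℂ[X] × ℂ[X]) ∈ conjRing S E.β D.a D.b E.hβ := by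
    unfold Side.lam
    rw [c.hβ]
    exact conj_lin (intCast_mem _ _) (intCast_mem _ _)
  have hm : ((C (E.mu r.1), C (E'.mu r.1)) : ℂ[X] × ℂ[X]) ∈ conjRing S E.β D.a D.b E.hβ := by
    unfold Side.mu
    rw [c.hβ]
    exact conj_lin (intCast_mem _ _) (intCast_mem _ _)
  have key := mul_mem (mul_mem (conj_diag (h := E.hβ) (IntDegL.C_mem
    (cst_mem2 D c.h₁ c.h₂ _ _ (D.sE_le M _ _ hj hr))))
    (mul_mem (pow_mem c.hG (tri (j.1.1 + r.1.1) + tri (j.1.2 + r.1.2)))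
      (pow_mem c.hH (uu j.1 + uu r.1 - (tri (j.1.1 + r.1.1) + tri (j.1.2 + r.1.2))))))
    (sum_mem (t := range (r.2 + 1)) fun k _ => mul_mem (mul_mem (mul_mem (mul_mem (mul_mem
      (natCast_mem _ (r.2.choose k)) (natCast_mem _ (j.2.descFactorial k))) (pow_mem hm (j.2 - k)))
      (pow_mem hl (r.2 - k))) (pow_mem (conj_diag ((IntDegL.ins_iff _ _).1 c.hB)) (r.2 - k)))
      (pow_mem (conj_diag ((IntDegL.ins_iff _ _).1 c.hA)) k))
  convert key using 1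
  ext1 <;> simp [Side.entry, Prod.fst_sum, Prod.snd_sum]

theorem minor_mem (M q q' : ℕ) (ι : idx M q → idx M q') :
    (E.minor M q q' ι, E'.minor M q q' ι) ∈ conjRing S E.β D.a D.b E.hβ := by
  have key := sum_mem (t := univ) fun (σ : Equiv.Perm (idx M q)) _ =>
    mul_mem (intCast_mem _ (Equiv.Perm.sign σ : ℤ)) (prod_mem (t := univ) fun i _ =>
      c.entry_mem M _ _ ((LatL.mem_idx _ _ _).1 (ι (σ i)).2).1 ((LatL.mem_idx _ _ _).1 i.2).1)
  convert key using 1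
  ext1 <;> simp [Side.minor, Matrix.det_apply', Prod.fst_sum, Prod.snd_sum, Prod.fst_prod,
    Prod.snd_prod]

end Conj

end LogPow
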