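import Pool.Agent.MP_655169_nt.H78.AuxP
import Pool.Agent.MP_655169_nt.H83.Asm
import Pool.Agent.MP_655169_nt.H83.Bal
import Pool.Agent.MP_655169_nt.H83.Cl
import Pool.Agent.MP_655169_nt.H83.ClaimB
import Pool.Agent.MP_655169_nt.H83.Clear
import Pool.Agent.MP_655169_nt.H83.ContentMul
import Pool.Agent.MP_655169_nt.H83.Fin
import Pool.Agent.MP_655169_nt.H83.HOBasic
import Pool.Agent.MP_655169_nt.H83.HORes
import Pool.Agent.MP_655169_nt.H83.Ht
import Pool.Agent.MP_655169_nt.H83.Norm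
import Pool.Agent.MP_655169_nt.H83.ResMem
import Pool.Agent.MP_655169_nt.H83.ResW
import Pool.Agent.MP_655169_nt.H83.Select

/-! `log α` is not a rational function on the conic `w w' = α ^ a` over `k`. -/

open Polynomial NumberField Finset

namespace LogPow

theorem crit : CritStmt :=
  critStmt (notRoot clStmt (claimB clStmt (resW clStmt))) (selectStmt clStmt)
    (balStmt clStmt (claimB clStmt (resW clStmt))) (finStmt clStmt (resW clStmt))

theorem lin_deg (x y : ℂ) : (C x + C y * X : ℂ[X]).natDegree ≤ 1 := by compute_degree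

/-- The core statement: `L` is not in `K(t)` for a parameter `t` of the conic. -/
theorem core (K : IntermediateField ℚ ℂ) [NumberField K] (hns : NormSq K.val.toRingHom)
    (β : ℂ) (a b : ℤ) (hβ : β ^ 2 = a * β + b) (hirr : ∀ m n : ℤ, (m : ℂ) + n * β = 0 → m = 0 ∧ n = 0)
    (L : ℂ) (hL : L ≠ 0) (hα : Complex.exp L ∈ K) (p q : ℂ) (hp : p ∈ K) (hq : q ∈ K) (t : ℂ)
    (h1 : (p + q * β) * (1 + (2 * β - a) * t) = Complex.exp (β * L) * (1 - (2 * β - a) * t))
    (h2 : (p + q * (a - β)) * (1 - (2 * β - a) * t) =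
      Complex.exp ((a - β) * L) * (1 + (2 * β - a) * t))
    (h3 : 1 - (2 * β - a) * t ≠ 0) (h4 : 1 + (2 * β - a) * t ≠ 0) :
    L ∉ IntermediateField.adjoin K {t} := by
  intro hmem
  set φ : K →+* ℂ := K.val.toRingHom with hφ
  obtain ⟨H⟩ := htStmt (hOBasic contentMul) (hORes resMem) K φ hns
  obtain ⟨c1, c2, -, c4⟩ := clearStmt K φ
  obtain ⟨r, s, hrs⟩ := (IntermediateField.mem_adjoin_simple_iff K L).1 hmem
  have hφm : φ = algebraMap K ℂ := rfl
  have hs0 : aeval t s ≠ 0 := by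
    intro h; rw [h, div_zero] at hrs; exact hL hrs
  obtain ⟨nr, hnr, hr⟩ := c2 r
  obtain ⟨ns, hns1, hs⟩ := c2 s
  have hαinv : Complex.exp (-L) ∈ K := by
    rw [Complex.exp_neg]; exact K.inv_mem hα
  obtain ⟨m1, hm1, hm1'⟩ := c1 ⟨_, hα⟩
  obtain ⟨m2, hm2, hm2'⟩ := c1 ⟨_, hαinv⟩
  obtain ⟨n1, hn1, hn1'⟩ := c1 ⟨_, hp⟩
  obtain ⟨n2, hn2, hn2'⟩ := c1 ⟨_, hq⟩
  set A : ℂ[X] := C (nr : ℂ) * (C (ns : ℂ) * s.map φ) with hAdef
  set B : ℂ[X] := C (ns : ℂ) * (C (nr : ℂ) * r.map φ) with hBdef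
  have hnat : ∀ (n : ℕ) (P : ℂ[X]), InS (SK φ) P → InS (SK φ) (C (n : ℂ) * P) := by
    intro n P hP i
    rw [coeff_C_mul]
    exact (SK φ).mul_mem (natCast_mem _ n) (hP i)
  have hevs : (s.map φ).eval t = aeval t s := by rw [hφm, Polynomial.eval_map_algebraMap]
  have hevr : (r.map φ).eval t = aeval t r := by rw [hφm, Polynomial.eval_map_algebraMap]
  have hnr0 : (nr : ℂ) ≠ 0 := by exact_mod_cast (by omega : nr ≠ 0)
  have hns0 : (ns : ℂ) ≠ 0 := by exact_mod_cast (by omega : ns ≠ 0)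
  have hn0 : ((n1 * n2 : ℕ) : ℂ) ≠ 0 := by exact_mod_cast (Nat.mul_pos hn1 hn2).ne'
  have hAw : A.eval t ≠ 0 := by
    simp only [hAdef, eval_mul, eval_C, hevs]
    exact mul_ne_zero hnr0 (mul_ne_zero hns0 hs0)
  have hAB : B.eval t = L * A.eval t := by
    simp only [hAdef, hBdef, eval_mul, eval_C, hevs, hevr]
    rw [hrs]; field_simp
  set n : ℂ := ((n1 * n2 : ℕ) : ℂ) with hn
  set δ : ℂ := 2 * β - a with hδ
  set G : ℂ[X] := C (n * (p + q * β)) + C (n * (p + q * β) * δ) * X with hG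
  set G' : ℂ[X] := C (n * (p + q * (a - β))) + C (-(n * (p + q * (a - β)) * δ)) * X with hG'
  set H₁ : ℂ[X] := C n + C (-(n * δ)) * X with hH
  set H₂ : ℂ[X] := C n + C (n * δ) * X with hH'
  have e1 : H₁.eval t = n * (1 - δ * t) := by
    simp only [hH, eval_add, eval_mul, eval_C, eval_X]; ring
  have e2 : H₂.eval t = n * (1 + δ * t) := by
    simp only [hH', eval_add, eval_mul, eval_C, eval_X]; ring
  have hH0 : H₁.eval t ≠ 0 := e1 ▸ mul_ne_zero hn0 h3
  have hH0' : H₂.eval t ≠ 0 := e2 ▸ mul_ne_zero hn0 h4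
  obtain ⟨K₁, k0, k1, k2, k3, k4⟩ := ((Filter.eventually_ge_atTop (1 : ℝ)).and
    ((ClearL.bd_ev G (‖t‖ + 1)).and ((ClearL.bd_ev H₁ (‖t‖ + 1)).and
    ((ClearL.bd_ev G' (‖t‖ + 1)).and (ClearL.bd_ev H₂ (‖t‖ + 1)))))).exists
  obtain ⟨K₀, j1, j2, j3, j4, j5, j6, j7, j8, j9, j10, j11, j12, j13, j14, j15, j16, j17⟩ :=
    ((Filter.eventually_ge_atTop (2 : ℝ)).and <| (Filter.eventually_ge_atTop ‖L‖).and <|
    (ClearL.inv_ev (norm_pos_iff.2 hL)).and <| (Filter.eventually_ge_atTop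
      ((((m1 * m2 : ℕ) : ℝ) * Real.exp ‖L‖) ^ (1 + a.natAbs + b.natAbs) * K₁ ^ 8)).and <|
    (ClearL.bd_ev A (‖t‖ + 1)).and <| (ClearL.bd_ev B (‖t‖ + 1)).and <|
    (ClearL.inv_ev (norm_pos_iff.2 hAw)).and <| (Filter.eventually_ge_atTop (A.natDegree : ℝ)).and <|
    (Filter.eventually_ge_atTop (B.natDegree : ℝ)).and <|
    (Filter.eventually_ge_atTop (1 + |(a : ℝ)| + ‖β‖)).and <|
    (Filter.eventually_ge_atTop ‖Complex.exp (β * L)‖).and <|
    (ClearL.inv_ev (norm_pos_iff.2 (Complex.exp_ne_zero (β * L)))).and <|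
    (ClearL.inv_ev (norm_pos_iff.2 hH0)).and <|
    (Filter.eventually_ge_atTop (1 + |(a : ℝ)| + ‖(a : ℂ) - β‖)).and <|
    (Filter.eventually_ge_atTop ‖Complex.exp ((a - β) * L)‖).and <|
    (ClearL.inv_ev (norm_pos_iff.2 (Complex.exp_ne_zero ((a - β) * L)))).and <|
    ClearL.inv_ev (norm_pos_iff.2 hH0')).exists
  let D : Base :=
    { a := a, b := b, L := L, n₀ := m1 * m2, hn₀ := Nat.mul_pos hm1 hm2, A := A, B := B, t := t,
      hAB := hAB, K₀ := K₀, K₁ := K₁, hK := j1, hK1 := k0, hKL := j2, hKL' := j3, hKα := j4,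
      hKA := fun ζ h => ⟨j5 ζ h, j6 ζ h⟩, hKA' := j7, hKd := ⟨j8, j9⟩ }
  let E : Side D :=
    { β := β, hβ := hβ, hirr := hirr, G := G, H := H₁, dG := lin_deg _ _, dH := lin_deg _ _,
      hGH := by
        change G.eval t = Complex.exp (β * L) * H₁.eval t
        rw [e1]
        simp only [hG, eval_add, eval_mul, eval_C, eval_X]
        linear_combination n * h1
      hKβ := j10, hKw := j11, hKw' := j12, hKG := fun ζ h => ⟨k1 ζ h, k2 ζ h⟩, hKH' := j13 }
  let E' : Side D :=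
    { β := a - β
      hβ := by
        change ((a : ℂ) - β) ^ 2 = a * (a - β) + b
        linear_combination hβ
      hirr := fun m n h => by
        obtain ⟨h2, h3⟩ := hirr (m + n * a) (-n) (by push_cast; linear_combination h)
        have h4 : n = 0 := neg_eq_zero.1 h3
        rw [h4, zero_mul, add_zero] at h2
        exact ⟨h2, h4⟩
      G := G', H := H₂, dG := lin_deg _ _, dH := lin_deg _ _,
      hGH := by
        change G'.eval t = Complex.exp ((a - β) * L) * H₂.eval t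
        rw [e2]
        simp only [hG', eval_add, eval_mul, eval_C, eval_X]
        linear_combination n * h2
      hKβ := j14, hKw := j15, hKw' := j16, hKG := fun ζ h => ⟨k3 ζ h, k4 ζ h⟩, hKH' := j17 }
  have hnp : n * p ∈ SK φ := by
    have : n * p = (n2 : ℂ) * ((n1 : ℂ) * p) := by rw [hn]; push_cast; ring
    rw [this]; exact (SK φ).mul_mem (natCast_mem _ n2) hn1'
  have hnq : n * q ∈ SK φ := by
    have : n * q = (n1 : ℂ) * ((n2 : ℂ) * q) := by rw [hn]; push_cast; ring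
    rw [this]; exact (SK φ).mul_mem (natCast_mem _ n1) hn2'
  have hX := conj_diag (h := hβ) (IntDegL.X_mem (SK φ))
  have hη := conj_lin (h := hβ) hnp hnq
  have hd := conj_lin (h := hβ) (intCast_mem (SK φ) (-a)) (natCast_mem (SK φ) 2)
  have hN := conj_diag (h := hβ) (IntDegL.C_mem (natCast_mem (SK φ) (n1 * n2)))
  have hc : Conj E E' (SK φ) :=
    { hβ := rfl
      h₁ := by
        have : ((m1 * m2 : ℕ) : ℂ) * Complex.exp L = (m2 : ℂ) * ((m1 : ℂ) * Complex.exp L) := by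
          push_cast; ring
        change ((m1 * m2 : ℕ) : ℂ) * Complex.exp L ∈ _
        rw [this]; exact (SK φ).mul_mem (natCast_mem _ m2) hm1'
      h₂ := by
        have : ((m1 * m2 : ℕ) : ℂ) * Complex.exp (-L) =
            (m1 : ℂ) * ((m2 : ℂ) * Complex.exp (-L)) := by
          push_cast; ring
        change ((m1 * m2 : ℕ) : ℂ) * Complex.exp (-L) ∈ _
        rw [this]; exact (SK φ).mul_mem (natCast_mem _ m1) hm2'
      hA := hnat _ _ hs
      hB := hnat _ _ hr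
      hG := by
        convert add_mem hη (mul_mem (mul_mem hη hd) hX) using 1
        refine Prod.ext (Polynomial.funext fun z => ?_) (Polynomial.funext fun z => ?_) <;>
          simp [E, E', hG, hG', hδ] <;> ring
      hH := by
        convert sub_mem hN (mul_mem (mul_mem hN hd) hX) using 1
        refine Prod.ext (Polynomial.funext fun z => ?_) (Polynomial.funext fun z => ?_) <;>
          simp [E, E', hH, hH', hδ, hn] <;> ring }
  exact crit K φ (SK φ) H t (hc.aux (c4 hns))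

/-- A parameter `t` of the conic `w w' = η η'`. -/
theorem conic_param (K : IntermediateField ℚ ℂ) (β : ℂ) (a b : ℤ) (hβ : β ^ 2 = a * β + b)
    (hδ : 2 * β - a ≠ 0) (w w' p q : ℂ) (hp : p ∈ K) (hq : q ∈ K) (hw : w ≠ 0) (hw' : w' ≠ 0)
    (hN : (p + q * β) * (p + q * (a - β)) = w * w') (h0 : w + (p + q * β) ≠ 0) :
    ∃ t : ℂ, (p + q * β) * (1 + (2 * β - a) * t) = w * (1 - (2 * β - a) * t) ∧
      (p + q * (a - β)) * (1 - (2 * β - a) * t) = w' * (1 + (2 * β - a) * t) ∧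
      1 - (2 * β - a) * t ≠ 0 ∧ 1 + (2 * β - a) * t ≠ 0 ∧
      w + w' ∈ IntermediateField.adjoin K {t} ∧
      (w - w') / (2 * β - a) ∈ IntermediateField.adjoin K {t} := by
  have hη : p + q * β ≠ 0 := left_ne_zero_of_mul (hN ▸ mul_ne_zero hw hw')
  obtain ⟨t, ht⟩ : ∃ t : ℂ, (2 * β - a) * t * (w + (p + q * β)) = w - (p + q * β) :=
    ⟨(w - (p + q * β)) / (w + (p + q * β)) / (2 * β - a), by
      rw [mul_div_cancel₀ _ hδ, div_mul_cancel₀ _ h0]⟩
  have a1 : (1 - (2 * β - a) * t) * (w + (p + q * β)) = 2 * (p + q * β) := by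
    linear_combination -ht
  have a2 : (1 + (2 * β - a) * t) * (w + (p + q * β)) = 2 * w := by linear_combination ht
  have n1 : 1 - (2 * β - a) * t ≠ 0 :=
    left_ne_zero_of_mul (a1 ▸ mul_ne_zero two_ne_zero hη)
  have n2 : 1 + (2 * β - a) * t ≠ 0 := left_ne_zero_of_mul (a2 ▸ mul_ne_zero two_ne_zero hw)
  have b1 : (p + q * β) * (1 + (2 * β - a) * t) = w * (1 - (2 * β - a) * t) := by
    linear_combination ht
  have b2 : (p + q * (a - β)) * (1 - (2 * β - a) * t) = w' * (1 + (2 * β - a) * t) := by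
    refine mul_right_cancel₀ h0 ?_
    rw [mul_assoc, mul_assoc, a1, a2]
    linear_combination 2 * hN
  have hD : (2 * β - a) ^ 2 = ((a ^ 2 + 4 * b : ℤ) : ℂ) := by
    push_cast
    linear_combination 4 * hβ
  have n3 : 1 - ((a ^ 2 + 4 * b : ℤ) : ℂ) * t ^ 2 ≠ 0 := by
    rw [← hD, show 1 - (2 * β - a) ^ 2 * t ^ 2 = (1 - (2 * β - a) * t) * (1 + (2 * β - a) * t) by
      ring]
    exact mul_ne_zero n1 n2
  set F := IntermediateField.adjoin K {t}
  have mt : t ∈ F := IntermediateField.mem_adjoin_simple_self K t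
  have mp : p ∈ F := F.algebraMap_mem ⟨p, hp⟩
  have mq : q ∈ F := F.algebraMap_mem ⟨q, hq⟩
  have mD := intCast_mem F (a ^ 2 + 4 * b)
  have ms : 2 * p + a * q ∈ F :=
    add_mem (mul_mem (ofNat_mem F 2) mp) (mul_mem (intCast_mem F a) mq)
  have m1 : 1 + ((a ^ 2 + 4 * b : ℤ) : ℂ) * t ^ 2 ∈ F := add_mem (one_mem F) (mul_mem mD (pow_mem mt 2))
  have m2 : 1 - ((a ^ 2 + 4 * b : ℤ) : ℂ) * t ^ 2 ∈ F := sub_mem (one_mem F) (mul_mem mD (pow_mem mt 2))
  refine ⟨t, b1, b2, n1, n2, ?_, ?_⟩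
  · have e : w + w' = ((2 * p + a * q) * (1 + ((a ^ 2 + 4 * b : ℤ) : ℂ) * t ^ 2) +
        2 * q * ((a ^ 2 + 4 * b : ℤ) : ℂ) * t) / (1 - ((a ^ 2 + 4 * b : ℤ) : ℂ) * t ^ 2) := by
      rw [eq_div_iff n3, ← hD]
      linear_combination -(1 + (2 * β - a) * t) * b1 - (1 - (2 * β - a) * t) * b2
    rw [e]
    exact div_mem (add_mem (mul_mem ms m1) (mul_mem (mul_mem (mul_mem (ofNat_mem F 2) mq) mD) mt)) m2
  · have e : (w - w') / (2 * β - a) = (q * (1 + ((a ^ 2 + 4 * b : ℤ) : ℂ) * t ^ 2) +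
        2 * (2 * p + a * q) * t) / (1 - ((a ^ 2 + 4 * b : ℤ) : ℂ) * t ^ 2) := by
      rw [div_eq_div_iff hδ n3, ← hD]
      linear_combination -(1 + (2 * β - a) * t) * b1 + (1 - (2 * β - a) * t) * b2
    rw [e]
    exact div_mem (add_mem (mul_mem mq m1) (mul_mem (mul_mem (ofNat_mem F 2) ms) mt)) m2

theorem conic (κ : ℂ) (a' b' : ℤ) (hκ : κ ^ 2 = a' * κ + b') (him : κ.im ≠ 0)
    (β : ℂ) (a b : ℤ) (hβ : β ^ 2 = a * β + b) (hirr : ∀ r : ℚ, β ≠ r) (L : ℂ) (hL : L ≠ 0)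
    (hα : Complex.exp L ∈ IntermediateField.adjoin ℚ {κ}) (p q : ℂ)
    (hp : p ∈ IntermediateField.adjoin ℚ {κ}) (hq : q ∈ IntermediateField.adjoin ℚ {κ})
    (hN : (p + q * β) * (p + q * (a - β)) = Complex.exp L ^ a) :
    L ∉ IntermediateField.adjoin ℚ {κ, Complex.exp (β * L) + Complex.exp ((a - β) * L),
      (Complex.exp (β * L) - Complex.exp ((a - β) * L)) / (2 * β - a)} := by
  intro hmem
  obtain ⟨inst, hns⟩ := normStmt κ a' b' hκ him
  set K := IntermediateField.adjoin ℚ {κ} with hK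
  have hi : ∀ m n : ℤ, (m : ℂ) + n * β = 0 → m = 0 ∧ n = 0 := fun m n h => by
    have hn : n = 0 := by
      by_contra h0
      have : (n : ℂ) ≠ 0 := by exact_mod_cast h0
      refine hirr (-m / n) ?_
      push_cast
      rw [eq_div_iff this]
      linear_combination h
    rw [hn] at h
    exact ⟨by simpa using h, hn⟩
  have hδ : 2 * β - a ≠ 0 := fun h => by
    have := (hi (-a) 2 (by push_cast; linear_combination h)).2
    omega
  have hww : Complex.exp L ^ a = Complex.exp (β * L) * Complex.exp ((a - β) * L) := by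
    rw [← Complex.exp_int_mul, ← Complex.exp_add]
    congr 1
    ring
  have key : ∀ p q : ℂ, p ∈ K → q ∈ K → (p + q * β) * (p + q * (a - β)) = Complex.exp L ^ a →
      Complex.exp (β * L) + (p + q * β) = 0 := fun p q hp hq hN => by
    by_contra h0
    obtain ⟨t, b1, b2, n1, n2, m1, m2⟩ := conic_param K β a b hβ hδ _ _ p q hp hq
      (Complex.exp_ne_zero _) (Complex.exp_ne_zero _) (hN.trans hww) h0
    refine core K hns β a b hβ hi L hL hα p q hp hq t b1 b2 n1 n2 ?_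
    have hle : IntermediateField.adjoin ℚ {κ, Complex.exp (β * L) + Complex.exp ((a - β) * L),
        (Complex.exp (β * L) - Complex.exp ((a - β) * L)) / (2 * β - a)} ≤
        (IntermediateField.adjoin K {t}).restrictScalars ℚ := by
      rw [IntermediateField.adjoin_le_iff]
      rintro x (rfl | rfl | rfl)
      · exact (IntermediateField.adjoin K {t}).algebraMap_mem
          ⟨x, IntermediateField.mem_adjoin_simple_self ℚ x⟩
      · exact m1
      · exact m2
    exact hle hmem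
  have k1 := key p q hp hq hN
  have k2 := key (-p) (-q) (neg_mem hp) (neg_mem hq) (by linear_combination hN)
  exact Complex.exp_ne_zero (β * L) (by linear_combination (k1 + k2) / 2)

end LogPow
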